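import Mathlib
import Pool.Agent.Helper584_RM.Lang

set_option autoImplicit false

/-!
# The sentence forced (MP_cba831_lc)

The forcing language (`fnot`, `fand`, `fall`, `fimp`, `fex`, `fground`, `meets`, `IsFun`, `WO`) is the
one of `Pool.Agent.Helper584_RM.Lang`.
-/

open Set

namespace Pool.Agent.H679DW

open Pool.Agent.Helper584.RM

section Statements

variable {P : Type} [Preorder P] {W : Type} [LinearOrder W]

/-- The subset of `W` named by `A` is unbounded. -/
def Unb (A : W → Set P) : Set P :=
  fall fun a : W => fex fun b : W => fand (fground (a < b)) (meets (A b))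

/-- The sequence of elements of `W` named by `S` is a ladder on `c`: it is strictly increasing, its
terms are below `c`, and they are cofinal in the set of the elements below `c`. -/
def Ladder (S : ℕ → W → Set P) (c : W) : Set P :=
  fand (fall fun n : ℕ => fall fun a : W => fall fun b : W =>
      fimp (fand (meets (S n a)) (meets (S (n + 1) b))) (fground (a < b)))
    (fand (fall fun n : ℕ => fall fun a : W => fimp (meets (S n a)) (fground (a < c)))
      (fall fun a : W => fimp (fground (a < c))
        (fex fun n : ℕ => fex fun b : W => fand (meets (S n b)) (fground (a < b)))))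

/-- For infinitely many `n` the `n`-th term of the sequence named by `S` is in the set named by
`A`. -/
def InfMeets (S : ℕ → W → Set P) (A : W → Set P) : Set P :=
  fall fun m : ℕ => fex fun n : ℕ => fex fun a : W =>
    fand (fground (m ≤ n)) (fand (meets (S n a)) (meets (A a)))

variable (P W)

/-- `W` is well-ordered, has no last element, and for each `a` there is a sequence which runs through
all elements below `a`. -/
def Seg : Set P :=
  fand (WO P W) (fand (fall fun a : W => fex fun b : W => fground (a < b))
    (fex fun E : W → ℕ → W → Set P => fand (fall fun a => IsFun (E a))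
      (fall fun a : W => fall fun b : W => fimp (fground (b < a))
        (fex fun n : ℕ => meets (E a n b)))))

/-- The guessing principle: there is a family of sequences `S c`, `c ∈ W`, such that for any two
unbounded sets `A`, `B` there is `c` such that `S c` is a ladder on `c` which has infinitely many
terms in `A` and infinitely many terms in `B`. -/
def Guess : Set P :=
  fex fun S : W → ℕ → W → Set P => fand (fall fun c => IsFun (S c))
    (fall fun A : W → Set P => fall fun B : W → Set P => fimp (fand (Unb A) (Unb B))
      (fex fun c : W => fand (Ladder (S c) c) (fand (InfMeets (S c) A) (InfMeets (S c) B))))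

/-- For every family `X a`, `a ∈ W`, of 0-1 sequences there is a 0-1 sequence `G` such that for each
`a`, for all but finitely many `n`, `X a` and `G` differ at some place `i` with `2 ^ n ≤ i` and
`i < 2 ^ (n + 1)`. -/
def NonM : Set P :=
  fall fun X : W → ℕ → Bool → Set P => fimp (fall fun a => IsFun (X a))
    (fex fun G : ℕ → Bool → Set P => fand (IsFun G)
      (fall fun a : W => fex fun m : ℕ => fall fun n : ℕ => fimp (fground (m ≤ n))
        (fex fun i : ℕ => fand (fground (2 ^ n ≤ i ∧ i < 2 ^ (n + 1)))
          (fex fun b : Bool => fand (meets (X a i b)) (fnot (meets (G i b)))))))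

/-- The conjunction. -/
def Phi : Set P := fand (Seg P W) (fand (Guess P W) (NonM P W))

end Statements

/-! ### The same statements in the ordinary sense -/

section Plain

variable (W : Type) [LinearOrder W]

/-- `W` is well-ordered, has no last element, and for each `a` there is a sequence which runs through
all elements below `a`. -/
def Seg₀ : Prop :=
  WO₀ W ∧ (∀ a : W, ∃ b, a < b) ∧ ∃ e : W → ℕ → W, ∀ a b, b < a → ∃ n, e a n = b

/-- The guessing principle. -/
def Guess₀ : Prop :=
  ∃ s : W → ℕ → W, ∀ A B : W → Prop, ((∀ a, ∃ b, a < b ∧ A b) ∧ ∀ a, ∃ b, a < b ∧ B b) →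
    ∃ c, ((∀ n, s c n < s c (n + 1)) ∧ (∀ n, s c n < c) ∧ ∀ a, a < c → ∃ n, a < s c n) ∧
      (∀ m, ∃ n, m ≤ n ∧ A (s c n)) ∧ ∀ m, ∃ n, m ≤ n ∧ B (s c n)

/-- The third principle. -/
def NonM₀ : Prop :=
  ∀ x : W → ℕ → Bool, ∃ g : ℕ → Bool, ∀ a, ∃ m, ∀ n, m ≤ n →
    ∃ i, (2 ^ n ≤ i ∧ i < 2 ^ (n + 1)) ∧ x a i ≠ g i

/-- The conjunction. -/
def Phi₀ : Prop := Seg₀ W ∧ Guess₀ W ∧ NonM₀ W

end Plain

end Pool.Agent.H679DW
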