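import Mathlib
import Pool.Agent.H679DW.Lang

set_option autoImplicit false
set_option warn.classDefReducibility false

/-!
# The space (MP_cba831_lc)
-/

open Set

namespace Pool.Agent.H679DW

section Space

variable {W : Type} [LinearOrder W]

/-- `s c` is a ladder on `c`. -/
def IsLad (s : W → ℕ → W) (c : W) : Prop :=
  (∀ n, s c n < s c (n + 1)) ∧ (∀ n, s c n < c) ∧ ∀ a, a < c → ∃ n, a < s c n

/-- The `m`-th neighbourhood of the point `(c, n)`. -/
inductive Mem (s : W → ℕ → W) : W → ℕ → ℕ → W × ℕ → Prop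
  | top (c : W) (n m : ℕ) : Mem s c n m (c, n)
  | step (c : W) (n m k : ℕ) (x : W × ℕ) (hc : IsLad s c) (hk : m ≤ k)
      (hx : Mem s (s c k) n 0 x) (hj : ∀ j < k, s c j < x.1) : Mem s c (n + 1) m x

/-- The `m`-th neighbourhood of the point `(c, n)`. -/
def nb (s : W → ℕ → W) (c : W) (n m : ℕ) : Set (W × ℕ) := {x | Mem s c n m x}

theorem nb_anti (s : W → ℕ → W) (c : W) (n : ℕ) {m m' : ℕ} (h : m ≤ m') :
    nb s c n m' ⊆ nb s c n m := by
  rintro x hx
  cases hx with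
  | top => exact Mem.top c n m
  | step c n _ k x hc hk hx hj => exact Mem.step c n m k x hc (h.trans hk) hx hj

/-- The topology. -/
def tp (s : W → ℕ → W) : TopologicalSpace (W × ℕ) where
  IsOpen U := ∀ c n, (c, n) ∈ U → ∃ m, nb s c n m ⊆ U
  isOpen_univ := fun _ _ _ => ⟨0, subset_univ _⟩
  isOpen_inter := by
    intro U V hU hV c n h
    obtain ⟨m, hm⟩ := hU c n h.1
    obtain ⟨m', hm'⟩ := hV c n h.2
    exact ⟨max m m', fun x hx => ⟨hm (nb_anti s c n (le_max_left _ _) hx),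
      hm' (nb_anti s c n (le_max_right _ _) hx)⟩⟩
  isOpen_sUnion := by
    intro F hF c n h
    obtain ⟨U, hU, hx⟩ := mem_sUnion.1 h
    obtain ⟨m, hm⟩ := hF U hU c n hx
    exact ⟨m, hm.trans (subset_sUnion_of_mem hU)⟩

/-- The guessing principle for `s`. -/
def Gs (s : W → ℕ → W) : Prop :=
  ∀ A B : W → Prop, ((∀ a, ∃ b, a < b ∧ A b) ∧ ∀ a, ∃ b, a < b ∧ B b) →
    ∃ c, IsLad s c ∧ (∀ m, ∃ n, m ≤ n ∧ A (s c n)) ∧ ∀ m, ∃ n, m ≤ n ∧ B (s c n)

theorem guess_iff : Guess₀ W ↔ ∃ s : W → ℕ → W, Gs s := Iff.rfl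

end Space

/-- Countable paracompactness: every countable open cover has a locally finite open refinement
(again a cover). -/
def CountablyParacompact (X : Type) [TopologicalSpace X] : Prop :=
  ∀ U : ℕ → Set X, (∀ n, IsOpen (U n)) → (⋃ n, U n) = Set.univ →
    ∃ (ι : Type) (V : ι → Set X), (∀ i, IsOpen (V i)) ∧ (⋃ i, V i) = Set.univ ∧
      LocallyFinite V ∧ ∀ i, ∃ n, V i ⊆ U n

end Pool.Agent.H679DW
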