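import Mathlib
import Pool.Agent.H679DW.Lang
import Pool.Agent.H679DW.Space

set_option autoImplicit false

open Set MeasureTheory Cardinal
open scoped Topology

namespace Pool.Agent.H679DW

open Pool.Agent.Helper584.RM

variable {W : Type} [LinearOrder W] [WellFoundedLT W] (s : W → ℕ → W)

omit [WellFoundedLT W] in
theorem dw2_le {c : W} {n m : ℕ} {x : W × ℕ} (h : Mem s c n m x) : x.1 ≤ c ∧ x.2 ≤ n := by
  induction h with
  | top c n m => exact ⟨le_rfl, le_rfl⟩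
  | step c n m k x hc hk hx hj ih => exact ⟨ih.1.trans (hc.2.1 k).le, ih.2.trans (Nat.le_succ n)⟩

omit [WellFoundedLT W] in
theorem dw2_cases {c : W} {n m : ℕ} {x : W × ℕ} (h : Mem s c n m x) :
    x = (c, n) ∨ ∃ n' k, n = n' + 1 ∧ IsLad s c ∧ m ≤ k ∧ Mem s (s c k) n' 0 x ∧
      (∀ j < k, s c j < x.1) ∧ x.1 < c := by
  cases h with
  | top => exact Or.inl rfl
  | step c n _ k x hc hk hx hj =>
    exact Or.inr ⟨n, k, rfl, hc, hk, hx, hj, (dw2_le s hx).1.trans_lt (hc.2.1 k)⟩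

omit [WellFoundedLT W] in
theorem dw2_far (c : W) (n : ℕ) (a : W) (ha : a < c) :
    ∃ m, ∀ x ∈ nb s c n m, a < x.1 := by
  by_cases hc : IsLad s c
  · obtain ⟨n0, hn0⟩ := hc.2.2 a ha
    refine ⟨n0 + 1, fun x hx => ?_⟩
    rcases dw2_cases s hx with h | ⟨n', k, -, -, hk, -, hj, -⟩
    · rw [h]; exact ha
    · exact hn0.trans (hj n0 (Nat.lt_of_lt_of_le (Nat.lt_succ_self _) hk))
  · refine ⟨0, fun x hx => ?_⟩
    rcases dw2_cases s hx with h | ⟨n', k, -, hl, -⟩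
    · rw [h]; exact ha
    · exact absurd hl hc

omit [WellFoundedLT W] in
theorem dw2_far_fin (c : W) (n : ℕ) (f : ℕ → W) (k : ℕ) (hf : ∀ i < k, f i < c) :
    ∃ m, ∀ x ∈ nb s c n m, ∀ i < k, f i < x.1 := by
  induction k with
  | zero => exact ⟨0, fun x _ i hi => absurd hi (Nat.not_lt_zero i)⟩
  | succ k ih =>
    obtain ⟨m1, h1⟩ := ih fun i hi => hf i (hi.trans (Nat.lt_succ_self k))
    obtain ⟨m2, h2⟩ := dw2_far s c n (f k) (hf k (Nat.lt_succ_self k))
    refine ⟨max m1 m2, fun x hx i hi => ?_⟩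
    rcases Nat.lt_succ_iff_lt_or_eq.1 hi with h | h
    · exact h1 x (nb_anti s c n (le_max_left _ _) hx) i h
    · rw [h]; exact h2 x (nb_anti s c n (le_max_right _ _) hx)

theorem nb_open (c : W) (n m : ℕ) : IsOpen[tp s] (nb s c n m) := by
  induction c using WellFoundedLT.induction generalizing n m with
  | _ c ih =>
    intro d j hd
    rcases dw2_cases s hd with h | ⟨n', k, hn, hl, hk, hx, hj, -⟩
    · obtain ⟨rfl, rfl⟩ := Prod.mk.inj h
      exact ⟨m, subset_rfl⟩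
    · subst hn
      obtain ⟨m1, h1⟩ := ih (s c k) (hl.2.1 k) n' 0 d j hx
      obtain ⟨m2, h2⟩ := dw2_far_fin s d j (s c) k hj
      refine ⟨max m1 m2, fun y hy => ?_⟩
      exact Mem.step c n' m k y hl hk (h1 (nb_anti s d j (le_max_left _ _) hy))
        (h2 y (nb_anti s d j (le_max_right _ _) hy))

theorem nhds_basis (c : W) (n : ℕ) :
    (@nhds _ (tp s) (c, n)).HasBasis (fun _ : ℕ => True) (fun m => nb s c n m) := by
  let _ := tp s
  rw [Filter.hasBasis_iff]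
  intro t
  rw [mem_nhds_iff]
  constructor
  · rintro ⟨U, hU, hO, hc⟩
    obtain ⟨m, hm⟩ := (show ∀ c n, (c, n) ∈ U → ∃ m, nb s c n m ⊆ U from hO) c n hc
    exact ⟨m, trivial, hm.trans hU⟩
  · rintro ⟨m, -, hm⟩
    exact ⟨nb s c n m, hm, nb_open s c n m, Mem.top c n m⟩

omit [WellFoundedLT W] in
theorem dw2_t1 (x : W × ℕ) : IsOpen[tp s] ({x}ᶜ : Set (W × ℕ)) := by
  intro c n h
  have hne : (c, n) ≠ x := h
  rcases lt_or_ge x.1 c with hlt | hge
  · obtain ⟨m, hm⟩ := dw2_far s c n x.1 hlt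
    refine ⟨m, fun y hy hyx => ?_⟩
    have := hm y hy
    rw [mem_singleton_iff.1 hyx] at this
    exact lt_irrefl _ this
  · refine ⟨0, fun y hy hyx => ?_⟩
    rw [mem_singleton_iff] at hyx
    rcases dw2_cases s hy with h' | ⟨n', k, -, -, -, -, -, hlt⟩
    · exact hne (h'.symm.trans hyx)
    · rw [hyx] at hlt
      exact absurd hlt (not_lt.2 hge)

theorem t1 : @T1Space _ (tp s) := by
  let _ := tp s
  exact ⟨fun x => ⟨dw2_t1 s x⟩⟩

theorem iic_open (a : W) : IsOpen[tp s] {x : W × ℕ | x.1 ≤ a} := by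
  intro c n h
  exact ⟨0, fun y hy => (dw2_le s hy).1.trans h⟩

theorem iic_closed (a : W) : IsClosed[tp s] {x : W × ℕ | x.1 ≤ a} := by
  let _ := tp s
  constructor
  intro c n h
  have hac : a < c := not_le.1 h
  obtain ⟨m, hm⟩ := dw2_far s c n a hac
  exact ⟨m, fun y hy => not_le.2 (hm y hy)⟩

theorem level_open (n : ℕ) : IsOpen[tp s] {x : W × ℕ | x.2 < n} := by
  intro c n' h
  exact ⟨0, fun y hy => (dw2_le s hy).2.trans_lt h⟩

end Pool.Agent.H679DW
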