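import Mathlib
import Pool.Agent.H679DW.Lang
import Pool.Agent.Helper584_RM.ForceCov

set_option autoImplicit false

/-!
# The forcing notion (MP_cba831_lc)
-/

open Set MeasureTheory Cardinal

namespace Pool.Agent.H679DW

open Pool.Agent.Helper584.RM

/-- A condition for adding a family of sequences: a family of sequences, of which only the members
with index below `top` matter. -/
structure Lad (W : Type) [LinearOrder W] : Type where
  top : W
  f : W → ℕ → W

instance (W : Type) [LinearOrder W] : Preorder (Lad W) where
  le q' q := q.top ≤ q'.top ∧ ∀ a < q.top, q'.f a = q.f a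
  le_refl q := ⟨le_rfl, fun _ _ => rfl⟩
  le_trans _ _ _ hab hbc :=
    ⟨hbc.1.trans hab.1, fun x hx => (hab.2 x (hx.trans_le hbc.1)).trans (hbc.2 x hx)⟩

/-- The forcing notion: the product of `Lad W` and the measurable sets of positive measure of the
product of fair coins indexed by `J`. -/
abbrev PP (W J : Type) [LinearOrder W] : Type := Lad W × Pos (cm J)

/-- The name of the generic family of sequences. -/
def Sn (W J : Type) [LinearOrder W] (c : W) (n : ℕ) (a : W) : Set (PP W J) :=
  {p | c < p.1.top ∧ p.1.f c n = a}

end Pool.Agent.H679DW
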