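import Mathlib
import Pool.Agent.H679DW.Lang
import Pool.Agent.H679DW.Pos

set_option autoImplicit false

open Set MeasureTheory Cardinal
open scoped Topology

namespace Pool.Agent.H679DW

open Pool.Agent.Helper584.RM

theorem dw10_half {J : Type} (j : J) (b : Bool) :
    cm J {ω | ω j = b} = (2⁻¹ : ENNReal) := by
  have h1 : {ω : J → Bool | ω j = b} =
      (fun (ω : J → Bool) (_ : Unit) => ω j) ⁻¹' {fun _ => b} := by
    ext ω
    simp only [mem_ofPred_eq, mem_preimage, mem_singleton_iff, funext_iff, forall_const]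
  rw [h1, cm_preimage (g := fun _ : Unit => j) (fun a b _ => rfl) (measurableSet_singleton _)]
  have h2 : ({fun _ => b} : Set (Unit → Bool)) =
      Set.pi (Finset.univ : Finset Unit) fun _ => {b} := by
    ext y
    simp only [mem_singleton_iff, Finset.coe_univ, mem_pi, mem_univ, forall_const, funext_iff]
  rw [h2, cm, Measure.infinitePi_pi _ (fun _ _ => measurableSet_singleton _)]
  rw [Finset.prod_congr rfl (g := fun _ => (2⁻¹ : ENNReal))]
  · simp
  · intro j _
    rw [PMF.toMeasure_apply_singleton _ _ (measurableSet_singleton _)]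
    simp

theorem dw10_meas {J : Type} (j : J) (b : Bool) : MeasurableSet {ω : J → Bool | ω j = b} := by
  have h1 : {ω : J → Bool | ω j = b} = (fun ω : J → Bool => ω j) ⁻¹' {b} := by
    ext ω; simp
  rw [h1]
  exact (measurable_pi_apply j) (measurableSet_singleton b)

theorem dw10_measE {J : Type} {h : ℕ → Set (J → Bool)} (t : ℕ → J)
    (hm : ∀ i, MeasurableSet (h i)) (I : Finset ℕ) :
    MeasurableSet {ω | ∀ i ∈ I, (ω ∈ h i ↔ ω (t i) = true)} := by
  have h1 : {ω : J → Bool | ∀ i ∈ I, (ω ∈ h i ↔ ω (t i) = true)} =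
      ⋂ i ∈ I, ((h i ∩ {ω | ω (t i) = true}) ∪ ((h i)ᶜ ∩ {ω | ω (t i) = false})) := by
    ext ω
    simp only [mem_ofPred_eq, mem_iInter]
    refine forall₂_congr fun i _ => ?_
    by_cases h2 : ω ∈ h i <;> cases h3 : ω (t i) <;> simp [h2, h3]
  rw [h1]
  refine Finset.measurableSet_biInter _ fun i _ => ?_
  exact ((hm i).inter (dw10_meas _ _)).union ((hm i).compl.inter (dw10_meas _ _))

theorem dw10_main {J : Type} {h : ℕ → Set (J → Bool)} {T : Set J} (t : ℕ → J)
    (hm : ∀ i, MeasurableSet (h i)) (hT : ∀ i, Dep (h i) T) (ht : Function.Injective t)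
    (htT : ∀ n, t n ∉ T) (I : Finset ℕ) :
    ∀ A : Set (J → Bool), MeasurableSet A → Dep A {j | ∀ i ∈ I, j ≠ t i} →
    cm J (A ∩ {ω | ∀ i ∈ I, (ω ∈ h i ↔ ω (t i) = true)}) = cm J A * 2⁻¹ ^ I.card := by
  classical
  induction I using Finset.induction_on with
  | empty => intro A _ _; simp
  | insert i I hi ih =>
    intro A hA hAd
    have hE := dw10_measE t hm I
    set E : Set (J → Bool) := {ω | ∀ i ∈ I, (ω ∈ h i ↔ ω (t i) = true)} with hEdef
    have hdec : A ∩ {ω | ∀ k ∈ insert i I, (ω ∈ h k ↔ ω (t k) = true)} =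
        ((A ∩ E) ∩ h i) ∩ {ω | ω (t i) = true} ∪ ((A ∩ E) ∩ (h i)ᶜ) ∩ {ω | ω (t i) = false} := by
      ext ω
      simp only [Finset.forall_mem_insert, hEdef, mem_inter_iff, mem_ofPred_eq, mem_union,
        mem_compl_iff]
      by_cases h2 : ω ∈ h i <;> cases h3 : ω (t i) <;> simp [h2, h3]
    have hdisj : Disjoint (((A ∩ E) ∩ h i) ∩ {ω | ω (t i) = true})
        (((A ∩ E) ∩ (h i)ᶜ) ∩ {ω | ω (t i) = false}) := by
      rw [Set.disjoint_left]
      rintro ω ⟨_, h1⟩ ⟨_, h2⟩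
      simp only [mem_ofPred_eq] at h1 h2
      rw [h1] at h2
      cases h2
    have hEd : Dep E {j | j ≠ t i} := by
      intro ω ω' hω hωE k hk
      have hki : k ≠ i := fun h => hi (h ▸ hk)
      rw [← (hT k).iff (ω := ω) (ω' := ω') (fun s hs => hω s fun h => htT i (h ▸ hs)),
        ← hω (t k) fun h => hki (ht h)]
      exact hωE k hk
    have hAd1 : Dep A {j | j ≠ t i} :=
      hAd.mono fun j hj => hj i (Finset.mem_insert_self _ _)
    have hhd : Dep (h i) {j | j ≠ t i} := (hT i).mono fun j hj h => htT i (h ▸ hj)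
    have hd1 : Dep ((A ∩ E) ∩ h i) {j | j ≠ t i} := fun ω ω' hω h3 =>
      ⟨⟨hAd1 ω ω' hω h3.1.1, hEd ω ω' hω h3.1.2⟩, hhd ω ω' hω h3.2⟩
    have hd2 : Dep ((A ∩ E) ∩ (h i)ᶜ) {j | j ≠ t i} := fun ω ω' hω h3 =>
      ⟨⟨hAd1 ω ω' hω h3.1.1, hEd ω ω' hω h3.1.2⟩, fun h4 => h3.2 ((hhd.iff hω).2 h4)⟩
    have hc : ∀ b : Bool, Dep {ω : J → Bool | ω (t i) = b} {t i} := by
      intro b ω ω' hω h3
      simp only [mem_ofPred_eq] at h3 ⊢
      rw [← hω (t i) rfl, h3]
    have hST : Disjoint {j | j ≠ t i} ({t i} : Set J) := by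
      rw [Set.disjoint_left]
      intro j hj hj2
      exact hj hj2
    rw [hdec, measure_union hdisj (((hA.inter hE).inter (hm i).compl).inter (dw10_meas _ _)),
      cm_indep ((hA.inter hE).inter (hm i)) (dw10_meas _ _) hd1 (hc true) hST,
      cm_indep ((hA.inter hE).inter (hm i).compl) (dw10_meas _ _) hd2 (hc false) hST,
      dw10_half, dw10_half, ← add_mul]
    have h5 : cm J ((A ∩ E) ∩ h i) + cm J ((A ∩ E) ∩ (h i)ᶜ) = cm J (A ∩ E) := by
      rw [← Set.sdiff_eq]
      exact measure_inter_add_sdiff _ (hm i)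
    rw [h5, ih A hA (hAd.mono fun j hj k hk => hj k (Finset.mem_insert_of_mem hk)),
      Finset.card_insert_of_notMem hi, pow_succ, mul_assoc]

theorem block_measure {J : Type} {h : ℕ → Set (J → Bool)} {T : Set J} (t : ℕ → J)
    (hm : ∀ i, MeasurableSet (h i)) (hT : ∀ i, Dep (h i) T) (ht : Function.Injective t)
    (htT : ∀ n, t n ∉ T) (I : Finset ℕ) :
    cm J {ω | ∀ i ∈ I, (ω ∈ h i ↔ ω (t i) = true)} = 2⁻¹ ^ I.card := by
  have h1 := dw10_main t hm hT ht htT I univ MeasurableSet.univ (fun _ _ _ _ => mem_univ _)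
  rw [univ_inter, measure_univ, one_mul] at h1
  exact h1

end Pool.Agent.H679DW
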