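import Mathlib
import Pool.Agent.H679DW.Lang
import Pool.Agent.H679DW.Space

set_option autoImplicit false

open Set MeasureTheory Cardinal
open scoped Topology

namespace Pool.Agent.H679DW

open Pool.Agent.Helper584.RM

/-- a strictly increasing sequence above `u` -/
noncomputable def dw1_v {W : Type} [LinearOrder W] (f : W → W) (u : ℕ → W) : ℕ → W
  | 0 => u 0
  | (n + 1) => f (max (dw1_v f u n) (u n))

lemma dw1_bdd {W : Type} [LinearOrder W] (hlast : ∀ a : W, ∃ b, a < b) (h2 : Guess₀ W) (u : ℕ → W) :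
    ∃ a, ∀ n, u n < a := by
  by_contra hcon
  push Not at hcon
  choose f hf using hlast
  set v := dw1_v f u with hv
  have hv1 : ∀ n, v n < v (n + 1) := fun n => lt_of_le_of_lt (le_max_left _ _) (hf _)
  have hv2 : ∀ n, u n < v (n + 1) := fun n => lt_of_le_of_lt (le_max_right _ _) (hf _)
  have hmono : StrictMono v := strictMono_nat_of_lt_succ hv1
  have hcof : ∀ a, ∃ N, a < v N := by
    intro a
    obtain ⟨n, hn⟩ := hcon a
    exact ⟨n + 1, lt_of_le_of_lt hn (hv2 n)⟩
  obtain ⟨s, hs⟩ := h2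
  have hA : ∀ a, ∃ b, a < b ∧ ∃ n, v n = b := by
    intro a
    obtain ⟨N, hN⟩ := hcof a
    exact ⟨v N, hN, N, rfl⟩
  obtain ⟨c, ⟨hs1, hs2, -⟩, hs3, -⟩ := hs (fun b => ∃ n, v n = b) (fun b => ∃ n, v n = b) ⟨hA, hA⟩
  obtain ⟨N, hN⟩ := hcof c
  have hsm : StrictMono (s c) := strictMono_nat_of_lt_succ hs1
  have hinf : {n : ℕ | ∃ k, v k = s c n}.Infinite := by
    rw [Set.infinite_iff_exists_gt]
    intro m
    obtain ⟨n, hn, hk⟩ := hs3 (m + 1)
    exact ⟨n, hk, by omega⟩
  have hfin : (v '' (Set.Iio N)).Finite := (Set.finite_Iio N).image v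
  have himg : s c '' {n : ℕ | ∃ k, v k = s c n} ⊆ v '' (Set.Iio N) := by
    rintro _ ⟨n, ⟨k, hk⟩, rfl⟩
    refine ⟨k, ?_, hk⟩
    have : v k < v N := by rw [hk]; exact (hs2 n).trans hN
    exact hmono.lt_iff_lt.1 this
  exact (hinf.image hsm.injective.injOn) (hfin.subset himg)

lemma dw1_card_le {W : Type} [LinearOrder W] [WellFoundedLT W] (hc : ∀ a : W, (Iic a).Countable) :
    #W ≤ ℵ₁ := by
  by_contra hcon
  push Not at hcon
  have h1 : (ℵ₁ : Cardinal).ord < Ordinal.type (fun x y : W => x < y) := by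
    by_contra h
    push Not at h
    have h2 := Ordinal.card_le_card h
    rw [Ordinal.card_type, Cardinal.card_ord] at h2
    exact absurd hcon (not_lt.2 h2)
  obtain ⟨w, hw⟩ := Ordinal.typein_surj (fun x y : W => x < y) h1
  have h3 : #(Iio w) = ℵ₁ := by
    have := Ordinal.card_typein (r := fun x y : W => x < y) w
    rw [hw, Cardinal.card_ord] at this
    exact this.symm
  have h4 : (Iio w).Countable := (hc w).mono (fun x hx => le_of_lt hx)
  have h5 : #(Iio w) ≤ ℵ₀ := Cardinal.le_aleph0_iff_set_countable.2 h4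
  rw [h3] at h5
  exact absurd h5 (not_le.2 Cardinal.aleph0_lt_aleph_one)

theorem seg_card {W : Type} [LinearOrder W] (h1 : Seg₀ W) (h2 : Guess₀ W) :
    #W = ℵ₁ ∧ WellFoundedLT W ∧ (∀ a : W, (Iic a).Countable) ∧ ∀ u : ℕ → W, ∃ a, ∀ n, u n < a := by
  obtain ⟨hwo, hlast, e, he⟩ := h1
  have hwf : WellFoundedLT W := by
    refine ⟨WellFounded.wellFounded_iff_has_min.2 fun s hs => ?_⟩
    obtain ⟨w, hw, hmin⟩ := hwo (fun x => x ∈ s) hs
    exact ⟨w, hw, fun x hx => not_lt.2 (hmin x hx)⟩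
  have hu : ∀ u : ℕ → W, ∃ a, ∀ n, u n < a := dw1_bdd hlast h2
  have hc : ∀ a : W, (Iic a).Countable := by
    intro a
    have h : Iic a ⊆ insert a (Set.range (e a)) := by
      intro b hb
      rcases eq_or_lt_of_le hb with h | h
      · exact Or.inl h
      · obtain ⟨n, hn⟩ := he a b h
        exact Or.inr ⟨n, hn⟩
    exact ((Set.countable_range (e a)).insert a).mono h
  have hne : Nonempty W := by
    obtain ⟨s, hs⟩ := h2
    by_contra hemp
    rw [not_nonempty_iff] at hemp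
    obtain ⟨c, -⟩ := hs (fun _ => True) (fun _ => True) ⟨fun a => (hemp.false a).elim, fun a => (hemp.false a).elim⟩
    exact hemp.false c
  refine ⟨le_antisymm (dw1_card_le hc) ?_, hwf, hc, hu⟩
  rw [← Cardinal.succ_aleph0, Order.succ_le_iff]
  by_contra hcon
  push Not at hcon
  have hcount : Countable W := Cardinal.mk_le_aleph0_iff.1 hcon
  obtain ⟨u, hsur⟩ := exists_surjective_nat W
  obtain ⟨a, ha⟩ := hu u
  obtain ⟨n, hn⟩ := hsur a
  exact absurd (ha n) (by rw [hn]; exact lt_irrefl a)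

end Pool.Agent.H679DW
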