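import Mathlib
import Pool.Agent.H679DW.Lang
import Pool.Agent.H679DW.Space

set_option autoImplicit false

open Set MeasureTheory Cardinal
open scoped Topology

namespace Pool.Agent.H679DW

open Pool.Agent.Helper584.RM

/- label dw3_. Facts: x ∈ nb s c n m implies x.1 ≤ c, and x.1 = c implies x = (c, n).
(1) If n ≠ n' then nb s c n 0 and nb s c n' 0 are disjoint: induction on c; a common point x has x.1 < c (else x = (c, n) = (c, n')), so both memberships come from
`step` with k, k'; s c is strictly increasing, x.1 ≤ s c k, x.1 ≤ s c k', and all s c i < x.1 for i < k and for i < k', hence k = k'; use the induction hypothesis for s c k.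
(2) nb_closed: by well-founded induction on c (for all n, m). Let (d, j) ∉ nb s c n m; find m' with nb s d j m' disjoint from nb s c n m. If d > c: for m' large all points of
nb s d j m' have first coordinate > c (ladder cofinal in d; if s d is not a ladder or j = 0 then nb s d j m' = {(d, j)}). If d = c: j ≠ n, use (1). If d < c: if n = 0 or s c is not a
ladder, nb s c n m = {(c, n)} and points of nb s d j m' have first coordinate ≤ d < c. Otherwise let k be least with d ≤ s c k; for m' large every point y of nb s d j m' has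
s c i < y.1 for all i < k, and y.1 ≤ d ≤ s c k; so if such y is in nb s c n m it comes from `step` with the same k, m ≤ k and y ∈ nb s (s c k) n' 0, n = n' + 1; but then
(d, j) ∉ nb s (s c k) n' 0 (otherwise (d, j) ∈ nb s c n m by `step`) and the induction hypothesis gives m' with nb s d j m' disjoint from nb s (s c k) n' 0.
lift_mem: if (c, j+1) ∉ A then by openness of the complement some nb s c (j+1) m misses A; take n ≥ m with (s c n, j) ∈ A; (s c n, j) ∈ nb s c (j+1) m by `step`. -/
theorem dw3_inv {W : Type} [LinearOrder W] {s : W → ℕ → W} {c : W} {n m : ℕ} {x : W × ℕ}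
    (h : Mem s c n m x) : x = (c, n) ∨ ∃ n' k, n = n' + 1 ∧ IsLad s c ∧ m ≤ k ∧
      Mem s (s c k) n' 0 x ∧ ∀ j < k, s c j < x.1 := by
  cases h with
  | top => exact Or.inl rfl
  | step _ n' _ k _ hc hk hx hj => exact Or.inr ⟨n', k, rfl, hc, hk, hx, hj⟩

theorem dw3_mono {W : Type} [LinearOrder W] {s : W → ℕ → W} {c : W} (hc : IsLad s c) :
    StrictMono (s c) := strictMono_nat_of_lt_succ hc.1

theorem dw3_le {W : Type} [LinearOrder W] {s : W → ℕ → W} {c : W} {n m : ℕ} {x : W × ℕ}
    (h : Mem s c n m x) : x.1 ≤ c := by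
  induction h with
  | top => exact le_rfl
  | step c n m k x hc hk hx hj ih => exact ih.trans (hc.2.1 k).le

theorem dw3_uniq {W : Type} [LinearOrder W] {s : W → ℕ → W} {c : W} {n m : ℕ} {x : W × ℕ}
    (h : Mem s c n m x) : ∀ n' m', Mem s c n' m' x → n = n' := by
  induction h with
  | top c n m =>
    intro n' m' h'
    rcases dw3_inv h' with h1 | ⟨n1, k, -, hc, -, hx, -⟩
    · exact (Prod.ext_iff.1 h1).2
    · exact absurd (dw3_le hx) (not_le.2 (hc.2.1 k))
  | step c n m k x hc hk hx hj ih =>
    intro n' m' h'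
    rcases dw3_inv h' with h1 | ⟨n1, k1, rfl, -, -, hx1, hj1⟩
    · have h2 := dw3_le hx
      rw [h1] at h2
      exact absurd h2 (not_le.2 (hc.2.1 k))
    · have hk1 : k = k1 := by
        rcases lt_trichotomy k k1 with h2 | h2 | h2
        · exact absurd (dw3_le hx) (not_le.2 (hj1 k h2))
        · exact h2
        · exact absurd (dw3_le hx1) (not_le.2 (hj k1 h2))
      subst hk1
      rw [ih n1 0 hx1]

theorem dw3_high {W : Type} [LinearOrder W] {s : W → ℕ → W} {a d : W} (h : a < d) (j : ℕ) :
    ∃ m, ∀ y ∈ nb s d j m, a < y.1 := by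
  by_cases hd : IsLad s d
  · obtain ⟨n0, hn0⟩ := hd.2.2 a h
    refine ⟨n0 + 1, fun y hy => ?_⟩
    rcases dw3_inv hy with h1 | ⟨n1, k, -, -, hk, -, hj⟩
    · rw [h1]
      exact h
    · exact hn0.trans (hj n0 hk)
  · refine ⟨0, fun y hy => ?_⟩
    rcases dw3_inv hy with h1 | ⟨n1, k, -, hc, -⟩
    · rw [h1]
      exact h
    · exact absurd hc hd

theorem dw3_highs {W : Type} [LinearOrder W] {s : W → ℕ → W} {d : W} (j : ℕ) (f : ℕ → W) (k : ℕ)
    (h : ∀ i < k, f i < d) : ∃ m, ∀ y ∈ nb s d j m, ∀ i < k, f i < y.1 := by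
  induction k with
  | zero => exact ⟨0, fun y _ i hi => absurd hi (Nat.not_lt_zero i)⟩
  | succ k ih =>
    obtain ⟨m1, h1⟩ := ih (fun i hi => h i (hi.trans (Nat.lt_succ_self k)))
    obtain ⟨m2, h2⟩ := dw3_high (s := s) (h k (Nat.lt_succ_self k)) j
    refine ⟨max m1 m2, fun y hy i hi => ?_⟩
    rcases Nat.lt_succ_iff_lt_or_eq.1 hi with h3 | h3
    · exact h1 y (nb_anti s d j (le_max_left _ _) hy) i h3
    · rw [h3]
      exact h2 y (nb_anti s d j (le_max_right _ _) hy)

theorem dw3_sep {W : Type} [LinearOrder W] [WellFoundedLT W] (s : W → ℕ → W) (c : W) :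
    ∀ (n m : ℕ) (d : W) (j : ℕ), (d, j) ∉ nb s c n m →
      ∃ m', ∀ y ∈ nb s d j m', y ∉ nb s c n m := by
  induction c using WellFoundedLT.induction with
  | ind c ih =>
  intro n m d j hdj
  rcases lt_trichotomy d c with hd | hd | hd
  · -- `d < c`
    by_cases hc : IsLad s c
    · cases n with
      | zero =>
        refine ⟨0, fun y hy hy' => ?_⟩
        rcases dw3_inv hy' with h1 | ⟨n1, k, h2, -⟩
        · have h3 := dw3_le hy
          rw [h1] at h3
          exact absurd h3 (not_le.2 hd)
        · omega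
      | succ n =>
        classical
        have hex : ∃ k, d ≤ s c k := (hc.2.2 d hd).imp fun _ h => h.le
        obtain ⟨k, hk, hmin⟩ : ∃ k, d ≤ s c k ∧ ∀ i < k, s c i < d :=
          ⟨Nat.find hex, Nat.find_spec hex, fun i hi => not_le.1 (Nat.find_min hex hi)⟩
        obtain ⟨m1, hm1⟩ := dw3_highs (s := s) j (s c) k hmin
        by_cases hmk : m ≤ k
        · have hnot : (d, j) ∉ nb s (s c k) n 0 := fun hmem =>
            hdj (Mem.step c n m k (d, j) hc hmk hmem hmin)
          obtain ⟨m2, hm2⟩ := ih (s c k) (hc.2.1 k) n 0 d j hnot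
          refine ⟨max m1 m2, fun y hy hy' => ?_⟩
          have hy1 := hm1 y (nb_anti s d j (le_max_left _ _) hy)
          have hy2 := hm2 y (nb_anti s d j (le_max_right _ _) hy)
          have hyd := dw3_le hy
          rcases dw3_inv hy' with h1 | ⟨n1, k1, h2, -, -, hx1, hj1⟩
          · rw [h1] at hyd
            exact absurd hyd (not_le.2 hd)
          · have hk1 : k1 = k := by
              rcases lt_trichotomy k1 k with h3 | h3 | h3
              · exact absurd (dw3_le hx1) (not_le.2 (hy1 k1 h3))
              · exact h3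
              · exact absurd (hyd.trans hk) (not_le.2 (hj1 k h3))
            have hn : n1 = n := by omega
            subst hk1
            subst hn
            exact hy2 hx1
        · refine ⟨m1, fun y hy hy' => ?_⟩
          have hy1 := hm1 y hy
          have hyd := dw3_le hy
          rcases dw3_inv hy' with h1 | ⟨n1, k1, h2, -, hmk1, hx1, hj1⟩
          · rw [h1] at hyd
            exact absurd hyd (not_le.2 hd)
          · have h3 : k < k1 := by omega
            exact absurd (hyd.trans hk) (not_le.2 (hj1 k h3))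
    · refine ⟨0, fun y hy hy' => ?_⟩
      rcases dw3_inv hy' with h1 | ⟨n1, k, -, h2, -⟩
      · have h3 := dw3_le hy
        rw [h1] at h3
        exact absurd h3 (not_le.2 hd)
      · exact hc h2
  · -- `d = c`
    subst hd
    refine ⟨0, fun y hy hy' => ?_⟩
    have h1 := dw3_uniq hy n m hy'
    subst h1
    exact hdj (Mem.top d j m)
  · -- `c < d`
    obtain ⟨m', hm'⟩ := dw3_high (s := s) hd j
    exact ⟨m', fun y hy hy' => absurd (dw3_le hy') (not_le.2 (hm' y hy))⟩

variable {W : Type} [LinearOrder W] [WellFoundedLT W] (s : W → ℕ → W)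

theorem nb_closed (c : W) (n m : ℕ) : IsClosed[tp s] (nb s c n m) := by
  rw [← @isOpen_compl_iff _ _ (tp s)]
  intro d j hdj
  obtain ⟨m', hm'⟩ := dw3_sep s c n m d j hdj
  exact ⟨m', hm'⟩

theorem lift_mem {c : W} (hc : IsLad s c) {A : Set (W × ℕ)} (hA : IsClosed[tp s] A) {j : ℕ}
    (h : ∀ m, ∃ n, m ≤ n ∧ (s c n, j) ∈ A) : (c, j + 1) ∈ A := by
  by_contra hn
  have hO : IsOpen[tp s] Aᶜ := (@isOpen_compl_iff _ _ (tp s)).2 hA
  obtain ⟨m, hm⟩ := hO c (j + 1) hn
  obtain ⟨n, hmn, hnA⟩ := h m
  exact hm (Mem.step c j m n (s c n, j) hc hmn (Mem.top _ _ _) (fun i hi => dw3_mono hc hi)) hnA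

end Pool.Agent.H679DW
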