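import Mathlib
import Pool.Agent.H679DW.Lang
import Pool.Agent.H679DW.Pos

set_option autoImplicit false

open Set MeasureTheory Cardinal
open scoped Topology

namespace Pool.Agent.H679DW

open Pool.Agent.Helper584.RM

theorem exists_val {Ω : Type} [MeasurableSpace Ω] {μ : Measure Ω} [IsFiniteMeasure μ] {Q : Type}
    [Preorder Q] (N : Set (Q × Pos μ)) :
    ∃ V : Q → Set Ω, (∀ q, MeasurableSet (V q)) ∧
      ∀ (q : Q) (b : Pos μ), (q, b) ∈ meets N ↔ μ (b.1 \ V q) = 0 := by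
  have h := fun q : Q => exists_sup (μ := μ) {b : Pos μ | (q, b) ∈ meets N}
  choose c hcN hc hcs using h
  refine ⟨fun q => ⋃ t ∈ c q, t.1, fun q => MeasurableSet.biUnion (hc q) fun t _ => t.2.1, ?_⟩
  intro q b
  refine ⟨fun hb => hcs q b hb, fun hb => ?_⟩
  rintro ⟨q', b'⟩ ⟨hq, hbb⟩
  have h1 : μ (b'.1 \ ⋃ t ∈ c q, t.1) = 0 := measure_mono_null (sdiff_subset_sdiff_left hbb) hb
  have h2 : μ (⋃ t ∈ c q, b'.1 ∩ t.1) ≠ 0 := by
    intro h
    apply b'.2.2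
    refine measure_mono_null ?_ (measure_union_null h1 h)
    intro x hx
    by_cases hxc : x ∈ ⋃ t ∈ c q, t.1
    · right
      obtain ⟨t, ht, hxt⟩ := mem_iUnion₂.1 hxc
      exact mem_iUnion₂.2 ⟨t, ht, hx, hxt⟩
    · exact Or.inl ⟨hx, hxc⟩
  have h3 : ∃ t ∈ c q, μ (b'.1 ∩ t.1) ≠ 0 := by
    by_contra hcon
    push Not at hcon
    exact h2 ((measure_biUnion_null_iff (hc q)).2 hcon)
  obtain ⟨t, ht, h4⟩ := h3
  have h5 : (q, t) ∈ meets N := hcN q ht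
  obtain ⟨r, hr, s, hs, hrs⟩ := h5 (q', ⟨b'.1 ∩ t.1, b'.2.1.inter t.2.1, h4⟩)
    ⟨hq, inter_subset_right⟩
  exact ⟨r, le_trans hr ⟨le_rfl, inter_subset_left⟩, s, hs, hrs⟩

theorem val_mono {Ω : Type} [MeasurableSpace Ω] {μ : Measure Ω} [IsFiniteMeasure μ] {Q : Type}
    [Preorder Q] {N : Set (Q × Pos μ)} {V : Q → Set Ω} (hm : ∀ q, MeasurableSet (V q))
    (hV : ∀ (q : Q) (b : Pos μ), (q, b) ∈ meets N ↔ μ (b.1 \ V q) = 0) {q q' : Q} (h : q' ≤ q) :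
    μ (V q \ V q') = 0 := by
  by_contra hne
  obtain ⟨b, hb⟩ : ∃ b : Pos μ, b.1 = V q \ V q' := ⟨⟨_, (hm q).diff (hm q'), hne⟩, rfl⟩
  have h1 : (q, b) ∈ meets N := by
    rw [hV, hb]
    have : (V q \ V q') \ V q = ∅ := by
      ext x
      simp only [mem_sdiff, mem_empty_iff_false, iff_false]
      tauto
    rw [this, measure_empty]
  have h2 : (q', b) ∈ meets N :=
    fun p hp => h1 p (le_trans hp ⟨h, le_rfl⟩)
  rw [hV, hb] at h2
  apply hne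
  refine measure_mono_null ?_ h2
  intro x hx
  exact ⟨hx, hx.2⟩

theorem exhaust {Q : Type} [Preorder Q]
    (hσ : ∀ q : ℕ → Q, Antitone q → ∃ r, ∀ n, r ≤ q n) (v : ℕ → Q → ℝ)
    (hv : ∀ i q q', q' ≤ q → v i q ≤ v i q') (hb : ∀ i q, v i q ≤ 1) (q : Q) :
    ∃ r ≤ q, ∀ i, ∀ r' ≤ r, v i r' ≤ v i r := by
  have step : ∀ (j : ℕ) (p : Q), ∃ p' ≤ p, ∀ r' ≤ p,
      v (Nat.unpair j).1 r' ≤ v (Nat.unpair j).1 p' + 1 / ((j : ℝ) + 1) := by
    intro j p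
    have hne : (v (Nat.unpair j).1 '' {r' | r' ≤ p}).Nonempty := ⟨_, p, le_rfl, rfl⟩
    have hbd : BddAbove (v (Nat.unpair j).1 '' {r' | r' ≤ p}) := by
      refine ⟨1, ?_⟩
      rintro _ ⟨r', _, rfl⟩
      exact hb _ _
    have hpos : (0 : ℝ) < 1 / ((j : ℝ) + 1) := by positivity
    obtain ⟨_, ⟨p', hp', rfl⟩, hlt⟩ := exists_lt_of_lt_csSup hne
      (sub_lt_self (sSup (v (Nat.unpair j).1 '' {r' | r' ≤ p})) hpos)
    refine ⟨p', hp', fun r' hr' => ?_⟩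
    have := le_csSup hbd ⟨r', hr', rfl⟩
    linarith
  choose f hf1 hf2 using step
  let s : ℕ → Q := fun n => Nat.rec q (fun j p => f j p) n
  have hs0 : s 0 = q := rfl
  have hs1 : ∀ n, s (n + 1) = f n (s n) := fun n => rfl
  have hanti : Antitone s := antitone_nat_of_succ_le fun n => by rw [hs1]; exact hf1 n (s n)
  obtain ⟨r, hr⟩ := hσ s hanti
  refine ⟨r, hr 0, fun i r' hr' => ?_⟩
  refine le_of_forall_pos_le_add fun ε hε => ?_
  obtain ⟨m, hmε⟩ := exists_nat_one_div_lt hε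
  have h1 := hf2 (Nat.pair i m) (s (Nat.pair i m)) r' (hr'.trans (hr _))
  rw [Nat.unpair_pair] at h1
  simp only at h1
  rw [← hs1] at h1
  have h2 : v i (s (Nat.pair i m + 1)) ≤ v i r :=
    hv i (s (Nat.pair i m + 1)) r (hr (Nat.pair i m + 1))
  have h3 : (m : ℝ) ≤ (Nat.pair i m : ℝ) := by exact_mod_cast Nat.right_le_pair i m
  have h4 : 1 / ((Nat.pair i m : ℝ) + 1) ≤ 1 / ((m : ℝ) + 1) := by
    apply one_div_le_one_div_of_le (by positivity)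
    linarith
  linarith

end Pool.Agent.H679DW
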