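import Mathlib
import Pool.Agent.H679DW.Val
import Pool.Agent.H679DW.Lang
import Pool.Agent.H679DW.Pos

set_option autoImplicit false

open Set MeasureTheory Cardinal
open scoped Topology

namespace Pool.Agent.H679DW

open Pool.Agent.Helper584.RM





/-- A set is contained in the union of a set and three null sets. -/
theorem dw9_le {Ω : Type} [MeasurableSpace Ω] {μ : Measure Ω} {A U N1 N2 N3 : Set Ω}
    (h : A ⊆ U ∪ (N1 ∪ (N2 ∪ N3))) (h1 : μ N1 = 0) (h2 : μ N2 = 0) (h3 : μ N3 = 0) :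
    μ A ≤ μ U := by
  have h4 : μ (N1 ∪ (N2 ∪ N3)) = 0 := measure_union_null h1 (measure_union_null h2 h3)
  calc μ A ≤ μ (U ∪ (N1 ∪ (N2 ∪ N3))) := measure_mono h
    _ ≤ μ U + μ (N1 ∪ (N2 ∪ N3)) := measure_union_le _ _
    _ = μ U := by rw [h4, add_zero]

/- TARGET -/
theorem decide_name {Ω : Type} [MeasurableSpace Ω] {μ : Measure Ω} [IsProbabilityMeasure μ]
    {Q : Type} [Preorder Q] (hσ : ∀ q : ℕ → Q, Antitone q → ∃ r, ∀ n, r ≤ q n)
    (X : ℕ → Bool → Set (Q × Pos μ)) (V : ℕ → Bool → Q → Set Ω)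
    (hVm : ∀ i y q, MeasurableSet (V i y q))
    (hV : ∀ i y q (b : Pos μ), (q, b) ∈ meets (X i y) ↔ μ (b.1 \ V i y q) = 0)
    (q : Q) (b : Pos μ) (hX : (q, b) ∈ IsFun X) :
    ∃ r ≤ q, ∀ i, μ (b.1 \ (V i true r ∪ V i false r)) = 0 := by
  have hmono : ∀ i y q q', q' ≤ q → μ (V i y q \ V i y q') = 0 := fun i y q q' h =>
    val_mono (hVm i y) (hV i y) h
  obtain ⟨r, hrq, hr⟩ := exhaust hσ (fun i q => (μ (V i true q ∪ V i false q)).toReal) (by
    intro i q q' h
    refine ENNReal.toReal_mono (measure_ne_top _ _) ?_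
    refine dw9_le (N1 := V i true q \ V i true q') (N2 := V i false q \ V i false q') (N3 := ∅) ?_
      (hmono i true q q' h) (hmono i false q q' h) measure_empty
    intro x hx
    by_cases hx1 : x ∈ V i true q'
    · exact Or.inl (Or.inl hx1)
    · by_cases hx2 : x ∈ V i false q'
      · exact Or.inl (Or.inr hx2)
      · rcases hx with hx | hx
        · exact Or.inr (Or.inl ⟨hx, hx1⟩)
        · exact Or.inr (Or.inr (Or.inl ⟨hx, hx2⟩))) (by
    intro i q
    have h1 : μ (V i true q ∪ V i false q) ≤ 1 := prob_le_one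
    have h2 := ENNReal.toReal_mono ENNReal.one_ne_top h1
    simpa using h2) q
  refine ⟨r, hrq, fun i => ?_⟩
  by_contra hne
  have hbm : MeasurableSet (b.1 \ (V i true r ∪ V i false r)) :=
    b.2.1.diff ((hVm i true r).union (hVm i false r))
  let b' : Pos μ := ⟨b.1 \ (V i true r ∪ V i false r), hbm, hne⟩
  have hle : ((r, b') : Q × Pos μ) ≤ (q, b) := ⟨hrq, sdiff_subset⟩
  have h1 : ((r, b') : Q × Pos μ) ∈ fex (fun y => meets (X i y)) := by
    intro p hp
    exact hX.1 i p (hp.trans hle)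
  obtain ⟨y, ⟨r', b''⟩, hle', hmem⟩ := of_mem_fex h1
  have hr' : r' ≤ r := hle'.1
  have hb'' : b''.1 ⊆ b.1 \ (V i true r ∪ V i false r) := hle'.2
  rw [hV] at hmem
  have hdis : Disjoint (V i true r ∪ V i false r) b''.1 := by
    rw [Set.disjoint_left]
    intro x hx hx'
    exact (hb'' hx').2 hx
  have h2 : μ ((V i true r ∪ V i false r) ∪ b''.1) ≤ μ (V i true r' ∪ V i false r') := by
    refine dw9_le (N1 := V i true r \ V i true r') (N2 := V i false r \ V i false r')
      (N3 := b''.1 \ V i y r') ?_ (hmono i true r r' hr') (hmono i false r r' hr') hmem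
    intro x hx
    by_cases hx1 : x ∈ V i true r'
    · exact Or.inl (Or.inl hx1)
    · by_cases hx2 : x ∈ V i false r'
      · exact Or.inl (Or.inr hx2)
      · rcases hx with (hx | hx) | hx
        · exact Or.inr (Or.inl ⟨hx, hx1⟩)
        · exact Or.inr (Or.inr (Or.inl ⟨hx, hx2⟩))
        · refine Or.inr (Or.inr (Or.inr ⟨hx, ?_⟩))
          cases y
          · exact hx2
          · exact hx1
  rw [measure_union hdis b''.2.1] at h2
  have h3 := hr i r' hr'
  rw [ENNReal.toReal_le_toReal (measure_ne_top _ _) (measure_ne_top _ _)] at h3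
  have h4 : μ (V i true r ∪ V i false r) + μ b''.1 ≤ μ (V i true r ∪ V i false r) + 0 := by
    rw [add_zero]
    exact h2.trans h3
  have h5 := (ENNReal.add_le_add_iff_left (measure_ne_top _ _)).1 h4
  exact b''.2.2 (le_antisymm h5 zero_le)

end Pool.Agent.H679DW
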