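import Mathlib
import Pool.Agent.H679DW.Closed
import Pool.Agent.H679DW.Lang
import Pool.Agent.H679DW.Space

set_option autoImplicit false

open Set MeasureTheory Cardinal
open scoped Topology

namespace Pool.Agent.H679DW

open Pool.Agent.Helper584.RM

/- label dw4_. Plain proof. levels: some level j of A is unbounded (otherwise choose bounds u j and take a > all u j, contradicting hA). If level i is unbounded, i.e.
Ai = {b | (b, i) ∈ A}, then for every a apply Gs to the set {b | a < b ∧ (b, i) ∈ A} (twice): the c obtained has a < s c n < c for some n and (c, i+1) ∈ A by lift_mem. So level i+1 is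
unbounded; induct. bounded_or: otherwise both A and B have all levels ≥ some common i unbounded; apply Gs to the levels i of A and of B: (c, i+1) ∈ A ∩ B. -/
variable {W : Type} [LinearOrder W] [WellFoundedLT W] (s : W → ℕ → W)



/- TARGETS -/
theorem levels (hs : Gs s) (hu : ∀ u : ℕ → W, ∃ a, ∀ n, u n < a) {A : Set (W × ℕ)}
    (hA : IsClosed[tp s] A) (hunb : ∀ a, ∃ x ∈ A, a < x.1) :
    ∃ j, ∀ i, j ≤ i → ∀ a, ∃ b, a < b ∧ (b, i) ∈ A := by
  have h1 : ∃ j, ∀ a, ∃ b, a < b ∧ (b, j) ∈ A := by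
    by_contra hcon
    have hcon' : ∀ j, ∃ a, ∀ b, a < b → (b, j) ∉ A := by
      intro j
      by_contra h2
      refine hcon ⟨j, fun a => ?_⟩
      by_contra h3
      exact h2 ⟨a, fun b hb hmem => h3 ⟨b, hb, hmem⟩⟩
    choose u hu' using hcon'
    obtain ⟨a, ha⟩ := hu u
    obtain ⟨x, hx, hax⟩ := hunb a
    exact hu' x.2 x.1 ((ha x.2).trans hax) hx
  obtain ⟨j, hj⟩ := h1
  refine ⟨j, fun i hi => ?_⟩
  induction i, hi using Nat.le_induction with
  | base => exact hj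
  | succ i _ ih =>
    intro a
    have hun : ∀ a', ∃ b, a' < b ∧ (a < b ∧ (b, i) ∈ A) := by
      intro a'
      obtain ⟨b, hb, hbA⟩ := ih (max a a')
      exact ⟨b, (le_max_right a a').trans_lt hb, (le_max_left a a').trans_lt hb, hbA⟩
    obtain ⟨c, hc, h1, -⟩ := hs (fun b => a < b ∧ (b, i) ∈ A) (fun b => a < b ∧ (b, i) ∈ A)
      ⟨hun, hun⟩
    obtain ⟨n, -, hn, -⟩ := h1 0
    refine ⟨c, hn.trans (hc.2.1 n), lift_mem s hc hA fun m => ?_⟩
    obtain ⟨k, hk, -, hkA⟩ := h1 m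
    exact ⟨k, hk, hkA⟩

theorem bounded_or (hs : Gs s) (hu : ∀ u : ℕ → W, ∃ a, ∀ n, u n < a) {A B : Set (W × ℕ)}
    (hA : IsClosed[tp s] A) (hB : IsClosed[tp s] B) (hAB : Disjoint A B) :
    (∃ a, ∀ x ∈ A, x.1 ≤ a) ∨ ∃ a, ∀ x ∈ B, x.1 ≤ a := by
  by_contra hcon
  have hA' : ∀ a, ∃ x ∈ A, a < x.1 := by
    intro a
    by_contra h
    exact hcon (Or.inl ⟨a, fun x hx => not_lt.1 fun hlt => h ⟨x, hx, hlt⟩⟩)
  have hB' : ∀ a, ∃ x ∈ B, a < x.1 := by
    intro a
    by_contra h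
    exact hcon (Or.inr ⟨a, fun x hx => not_lt.1 fun hlt => h ⟨x, hx, hlt⟩⟩)
  obtain ⟨j, hj⟩ := levels s hs hu hA hA'
  obtain ⟨k, hk⟩ := levels s hs hu hB hB'
  obtain ⟨c, hc, h1, h2⟩ := hs (fun b => (b, max j k) ∈ A) (fun b => (b, max j k) ∈ B)
    ⟨hj _ (le_max_left j k), hk _ (le_max_right j k)⟩
  exact Set.disjoint_left.1 hAB (lift_mem s hc hA h1) (lift_mem s hc hB h2)

end Pool.Agent.H679DW
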