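import Mathlib
import Pool.Agent.H679DW.Basic
import Pool.Agent.H679DW.Closed
import Pool.Agent.H679DW.Levels
import Pool.Agent.H679DW.Lang
import Pool.Agent.H679DW.Space

set_option autoImplicit false

open Set MeasureTheory Cardinal
open scoped Topology

namespace Pool.Agent.H679DW

open Pool.Agent.Helper584.RM

/- label dw5_. Plain proof. `dowker`: first countable from nhds_basis; locally countable: {x | x.1 ≤ a} is open and countable; T1: t1.
Normal: disjoint closed A, B; by bounded_or one of them, say A, lies in V = {x | x.1 ≤ a}, which is open, closed and countable. Separate A and B: use the sets nb s c n m, which are open and closed and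
form neighbourhood bases: for each x ∈ A choose a clopen nbhd missing B, for each y ∈ B ∩ V a clopen nbhd missing A; both families countable, the usual interleaving (Mathlib: `hasSeparatingCovers_iff_separatedNhds`,
HasSeparatingCover; for B use also the clopen set Vᶜ). Not countably paracompact: U n = {x | x.2 < n} (n = 0, 1, ...) is an open cover. Let V i be a locally finite open refinement. Put
O n = ⋃ of the V i which are not contained in U n. (a) ⋂ n O n = ∅: x lies in only finitely many V i, each contained in some U n, and U is increasing. (b) {x | n ≤ x.2} ⊆ O n: x lies in some V i, and V i is not contained in U n since x ∉ U n.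
(c) the complement C n of O n is closed (O n is open) and contained in {x | x.2 < n}, so by `levels` it is bounded: ∃ a, ∀ x ∈ C n, x.1 ≤ a. Take such a = u n for every n and b > all u n; then (b, 0) ∈ O n for all n, contradicting (a). -/
variable {W : Type} [LinearOrder W] [WellFoundedLT W] (s : W → ℕ → W)



















theorem dw5_cov {A B : Set (W × ℕ)} (hA : A.Countable) (hB : IsClosed[tp s] B)
    (hAB : Disjoint A B) : @HasSeparatingCover _ (tp s) A B := by
  let _ := tp s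
  rcases A.eq_empty_or_nonempty with h | h
  · rw [h]
    exact Set.hasSeparatingCover_empty_left B
  · obtain ⟨f, hf⟩ := hA.exists_eq_range h
    have key : ∀ n, ∃ m, nb s (f n).1 (f n).2 m ⊆ Bᶜ := by
      intro n
      have h1 : f n ∈ A := by rw [hf]; exact mem_range_self n
      have h2 : f n ∉ B := fun hb => (Set.disjoint_left.1 hAB) h1 hb
      have h3 : Bᶜ ∈ 𝓝 (f n) := hB.isOpen_compl.mem_nhds h2
      obtain ⟨m, -, hm⟩ := ((nhds_basis s (f n).1 (f n).2).mem_iff).1 h3
      exact ⟨m, hm⟩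
    choose m hm using key
    refine ⟨fun n => nb s (f n).1 (f n).2 (m n), ?_, ?_⟩
    · rw [hf]
      rintro _ ⟨n, rfl⟩
      exact mem_iUnion.2 ⟨n, Mem.top _ _ _⟩
    · intro n
      refine ⟨nb_open s _ _ _, ?_⟩
      rw [(nb_closed s (f n).1 (f n).2 (m n)).closure_eq]
      exact Set.disjoint_left.2 fun x hx hb => hm n hx hb

theorem dw5_cov' {a : W} (hc : ∀ a : W, (Iic a).Countable) {A B : Set (W × ℕ)}
    (hA : IsClosed[tp s] A) (hAB : Disjoint A B)
    (ha : ∀ x ∈ A, x.1 ≤ a) : @HasSeparatingCover _ (tp s) B A := by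
  let _ := tp s
  have hV : ({x : W × ℕ | x.1 ≤ a} : Set (W × ℕ)).Countable := by
    have : ({x : W × ℕ | x.1 ≤ a} : Set (W × ℕ)) = Iic a ×ˢ (univ : Set ℕ) := by
      ext x; simp
    rw [this]
    exact (hc a).prod countable_univ
  obtain ⟨u, hu1, hu2⟩ := dw5_cov s (A := B ∩ {x : W × ℕ | x.1 ≤ a}) (B := A)
    (hV.mono inter_subset_right) hA
    (Set.disjoint_left.2 fun x hx hxa => (Set.disjoint_left.1 hAB) hxa hx.1)
  refine ⟨fun n => match n with
    | 0 => {x : W × ℕ | x.1 ≤ a}ᶜ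
    | n + 1 => u n, ?_, ?_⟩
  · intro x hx
    by_cases hxa : x.1 ≤ a
    · obtain ⟨n, hn⟩ := mem_iUnion.1 (hu1 ⟨hx, hxa⟩)
      exact mem_iUnion.2 ⟨n + 1, hn⟩
    · exact mem_iUnion.2 ⟨0, hxa⟩
  · intro n
    cases n with
    | zero =>
      refine ⟨(iic_closed s a).isOpen_compl, ?_⟩
      have : IsClosed ({x : W × ℕ | x.1 ≤ a}ᶜ) := (iic_open s a).isClosed_compl
      rw [this.closure_eq]
      exact Set.disjoint_left.2 fun x hx hxa => hx (ha x hxa)
    | succ n => exact hu2 n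

theorem dw5_cov2 {a : W} (hc : ∀ a : W, (Iic a).Countable) {A B : Set (W × ℕ)}
    (hA : IsClosed[tp s] A) (hB : IsClosed[tp s] B) (hAB : Disjoint A B)
    (ha : ∀ x ∈ A, x.1 ≤ a) : @SeparatedNhds _ (tp s) A B := by
  let _ := tp s
  have hV : ({x : W × ℕ | x.1 ≤ a} : Set (W × ℕ)).Countable := by
    have : ({x : W × ℕ | x.1 ≤ a} : Set (W × ℕ)) = Iic a ×ˢ (univ : Set ℕ) := by
      ext x; simp
    rw [this]
    exact (hc a).prod countable_univ
  exact hasSeparatingCovers_iff_separatedNhds.1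
    ⟨dw5_cov s (hV.mono ha) hB hAB, dw5_cov' s hc hA hAB ha⟩

theorem dw5_ncp (hs : Gs s)
    (hu : ∀ u : ℕ → W, ∃ a, ∀ n, u n < a) : ¬ @CountablyParacompact _ (tp s) := by
  let _ := tp s
  intro hcp
  obtain ⟨ι, V, hVo, hVc, hlf, hVU⟩ := hcp (fun n => {x : W × ℕ | x.2 < n})
    (fun n => level_open s n) (by
      ext x
      simp only [mem_iUnion, mem_ofPred_eq, mem_univ, iff_true]
      exact ⟨x.2 + 1, Nat.lt_succ_self _⟩)
  let O : ℕ → Set (W × ℕ) := fun n => ⋃ i, ⋃ (_ : ¬ V i ⊆ {x : W × ℕ | x.2 < n}), V i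
  have hO : ∀ n, IsOpen (O n) := fun n => isOpen_iUnion fun i => isOpen_iUnion fun _ => hVo i
  have hOmem : ∀ n x, x ∈ O n ↔ ∃ i, (¬ V i ⊆ {x : W × ℕ | x.2 < n}) ∧ x ∈ V i := by
    intro n x
    simp only [O, mem_iUnion, exists_prop]
  -- (a)
  have ha : ∀ x, ∃ n, x ∉ O n := by
    intro x
    choose m hm using hVU
    have hfin : {i | x ∈ V i}.Finite := hlf.point_finite x
    obtain ⟨N, hN⟩ : ∃ N, ∀ i ∈ {i | x ∈ V i}, m i ≤ N := by
      obtain ⟨N, hN⟩ := (hfin.image m).bddAbove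
      exact ⟨N, fun i hi => hN (mem_image_of_mem m hi)⟩
    refine ⟨N, fun hx => ?_⟩
    obtain ⟨i, hi1, hi2⟩ := (hOmem N x).1 hx
    exact hi1 fun y hy => lt_of_lt_of_le (hm i hy) (hN i hi2)
  -- (b)
  have hb : ∀ n (x : W × ℕ), x ∉ O n → x.2 < n := by
    intro n x hx
    by_contra hlt
    apply hx
    have hxV : x ∈ ⋃ i, V i := by rw [hVc]; exact mem_univ x
    obtain ⟨i, hi⟩ := mem_iUnion.1 hxV
    exact (hOmem n x).2 ⟨i, fun hsub => hlt (hsub hi), hi⟩
  -- (c)
  have hcc : ∀ n, ∃ a, ∀ x ∈ (O n)ᶜ, x.1 ≤ a := by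
    intro n
    by_contra hcon
    push Not at hcon
    obtain ⟨j, hj⟩ := levels s hs hu (A := (O n)ᶜ) (hO n).isClosed_compl hcon
    have hup : ∀ a : W, ∃ b, a < b ∧ True := fun a => by
      obtain ⟨b, hb⟩ := hu (fun _ => a)
      exact ⟨b, hb 0, trivial⟩
    obtain ⟨a0, -⟩ := hs (fun _ => True) (fun _ => True) ⟨hup, hup⟩
    obtain ⟨b, -, hbn⟩ := hj (max j n) (le_max_left _ _) a0
    have h1 : ((b, max j n) : W × ℕ).2 < n := hb n (b, max j n) hbn
    exact absurd h1 (not_lt.2 (le_max_right j n))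
  choose u hu' using hcc
  obtain ⟨b, hb'⟩ := hu u
  obtain ⟨n, hn⟩ := ha (b, 0)
  exact absurd (hu' n (b, 0) hn) (not_le.2 (hb' n))

/- TARGET -/
theorem dowker (hs : Gs s) (hc : ∀ a : W, (Iic a).Countable)
    (hu : ∀ u : ℕ → W, ∃ a, ∀ n, u n < a) :
    @FirstCountableTopology _ (tp s) ∧
      (∀ x : W × ℕ, ∃ U : Set (W × ℕ), IsOpen[tp s] U ∧ x ∈ U ∧ U.Countable) ∧
      @T1Space _ (tp s) ∧ @NormalSpace _ (tp s) ∧ ¬ @CountablyParacompact _ (tp s) := by
  let _ := tp s
  refine ⟨⟨?_⟩, ?_, t1 s, ⟨?_⟩, dw5_ncp s hs hu⟩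
  · rintro ⟨c, n⟩
    exact (nhds_basis s c n).isCountablyGenerated
  · intro x
    refine ⟨{y : W × ℕ | y.1 ≤ x.1}, iic_open s x.1, le_refl x.1, ?_⟩
    have : ({y : W × ℕ | y.1 ≤ x.1} : Set (W × ℕ)) = Iic x.1 ×ˢ (univ : Set ℕ) := by
      ext y; simp
    rw [this]
    exact (hc x.1).prod countable_univ
  · intro A B hA hB hAB
    rcases bounded_or s hs hu hA hB hAB with ⟨a, ha⟩ | ⟨a, ha⟩
    · exact dw5_cov2 s hc hA hB hAB ha
    · exact (dw5_cov2 s hc hB hA hAB.symm ha).symm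

end Pool.Agent.H679DW
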