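import Mathlib
import Pool.Agent.H679DW.Lang
import Pool.Agent.H679DW.Pos

set_option autoImplicit false

open Set MeasureTheory Cardinal
open scoped Topology

namespace Pool.Agent.H679DW

open Pool.Agent.Helper584.RM

/- label dw12_. Plain proofs. uniform_eps: otherwise for all n and all r ≤ q there are r' ≤ r and a with ¬ G r' a n; build r 0 = q, r (n+1) ≤ r n, a n with ¬ G (r (n+1)) (a n) n; take r' below all r n (hσ), a' above all a n (hu), n with G r' a' n (hex);
by hG G (r (n+1)) (a n) n, contradiction. limsup_pos: the sets ⋃ n ≥ m, b n decrease with m and have measure ≥ ε; continuity from above. lad_lower: r.f a = (q n).f a if n is least with a < (q n).top, and l if there is no such n; r.top > c (hu for a constant sequence). -/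
theorem uniform_eps {Q W : Type} [Preorder Q] [LinearOrder W]
    (hσ : ∀ q : ℕ → Q, Antitone q → ∃ r, ∀ n, r ≤ q n) (hu : ∀ u : ℕ → W, ∃ a, ∀ n, u n < a)
    (G : Q → W → ℕ → Prop)
    (hG : ∀ q q' a a' n, q' ≤ q → a ≤ a' → G q' a' n → G q a n)
    (hex : ∀ q a, ∃ n, G q a n) (q : Q) : ∃ n, ∃ r ≤ q, ∀ r' ≤ r, ∀ a, G r' a n := by
  by_contra hcon
  push Not at hcon
  haveI : Nonempty W := by
    obtain ⟨_, _, a, _⟩ := hcon 0 q le_rfl
    exact ⟨a⟩
  choose! F hF A hA using hcon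
  let s : ℕ → Q := fun n => Nat.rec q (fun k r => F k r) n
  have hs0 : s 0 = q := rfl
  have hss : ∀ n, s (n + 1) = F n (s n) := fun n => rfl
  have hsq : ∀ n, s n ≤ q := by
    intro n
    induction n with
    | zero => exact le_refl _
    | succ n ih => rw [hss]; exact (hF n (s n) ih).trans ih
  have hanti : Antitone s := antitone_nat_of_succ_le (fun n => by rw [hss]; exact hF n (s n) (hsq n))
  obtain ⟨r, hr⟩ := hσ s hanti
  obtain ⟨a', ha'⟩ := hu (fun n => A n (s n))
  obtain ⟨n, hn⟩ := hex r a'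
  exact hA n (s n) (hsq n) (by rw [← hss]; exact hG _ _ _ _ _ (hr (n + 1)) (ha' n).le hn)

theorem limsup_pos {Ω : Type} [MeasurableSpace Ω] {μ : Measure Ω} [IsFiniteMeasure μ]
    (b : ℕ → Set Ω) (hb : ∀ n, MeasurableSet (b n)) {ε : ENNReal} (h : ∀ n, ε ≤ μ (b n)) :
    ε ≤ μ (⋂ m, ⋃ n, ⋃ (_ : m ≤ n), b n) := by
  have hanti : Antitone (fun m : ℕ => ⋃ n, ⋃ (_ : m ≤ n), b n) := by
    intro m m' hmm x hx
    simp only [Set.mem_iUnion] at hx ⊢
    obtain ⟨n, hn, hxn⟩ := hx
    exact ⟨n, hmm.trans hn, hxn⟩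
  have hmeas : ∀ m : ℕ, MeasurableSet (⋃ n, ⋃ (_ : m ≤ n), b n) :=
    fun m => MeasurableSet.iUnion (fun n => MeasurableSet.iUnion (fun _ => hb n))
  rw [hanti.measure_iInter (fun m => (hmeas m).nullMeasurableSet) ⟨0, measure_ne_top _ _⟩]
  refine le_iInf (fun m => (h m).trans (measure_mono ?_))
  intro x hx
  simp only [Set.mem_iUnion]
  exact ⟨m, le_refl m, hx⟩

theorem lad_lower {W : Type} [LinearOrder W] (hu : ∀ u : ℕ → W, ∃ a, ∀ n, u n < a)
    (q : ℕ → Lad W) (hq : Antitone q) (c : W) (hc : ∀ n, (q n).top ≤ c) (l : ℕ → W) :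
    ∃ r : Lad W, (∀ n, r ≤ q n) ∧ c < r.top ∧ r.f c = l := by
  classical
  obtain ⟨T, hT⟩ := hu (fun _ => c)
  have hcT : c < T := hT 0
  refine ⟨⟨T, fun a => if h : ∃ n, a < (q n).top then (q (Nat.find h)).f a else l⟩, ?_, hcT, ?_⟩
  · intro n
    refine ⟨(hc n).trans hcT.le, fun a ha => ?_⟩
    have h : ∃ n, a < (q n).top := ⟨n, ha⟩
    show (if h : ∃ n, a < (q n).top then (q (Nat.find h)).f a else l) = (q n).f a
    rw [dif_pos h]
    have hle : Nat.find h ≤ n := Nat.find_min' h ha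
    exact ((hq hle).2 a (Nat.find_spec h)).symm
  · show (if h : ∃ n, c < (q n).top then (q (Nat.find h)).f c else l) = l
    rw [dif_neg]
    rintro ⟨n, hn⟩
    exact absurd (hc n) (not_le.2 hn)

end Pool.Agent.H679DW
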