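import Mathlib
import Pool.Agent.H679DW.Small
import Pool.Agent.H679DW.Lang
import Pool.Agent.H679DW.Pos

set_option autoImplicit false

open Set MeasureTheory Cardinal
open scoped Topology

namespace Pool.Agent.H679DW

open Pool.Agent.Helper584.RM

/- label dw13_. Plain proof. S = Sn W J. IsFun (S c) is forced by every condition (extend q so that its top is above c; two conditions below a common one agree on f c). Let A, B be names and (q0, b0) ≤ p force Unb A and Unb B; let (q, b) ≤ (q0, b0). We find c and (r, d) ≤ (q, b) in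
Ladder ∩ InfMeets A ∩ InfMeets B (mem_fex_of). Apply uniform_eps to {q' // q' ≤ q} or to Lad W with the property G q' a n: `q' ≤ q → ` there are q'' ≤ q', a < α < β, b' ⊆ b with μ b' ≥ 1/(n+1) and (q'', b') ∈ meets (A α) ∩ meets (B β)
(hex: (q', b) forces Unb A: get α > a and an extension in meets (A α); it forces Unb B: get β > α; the measure is positive.) So there are n and r ≤ q with G r' a n for all r' ≤ r and a; ε = 1/(n+1).
Build q_0 = r, q_{k+1} ≤ q_k, α_k, β_k, b_k with top (q_k) < α_k < β_k < top (q_{k+1}), (q_{k+1}, b_k) ∈ meets (A α_k) ∩ meets (B β_k), b_k ⊆ b measurable, μ b_k ≥ ε. Let c = the least element above all top (q_k) (well-foundedness), l (2k) = α_k, l (2k+1) = β_k, r' from lad_lower (c < top r', f c = l), and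
d = limsup b_k = ⋂ m, ⋃ k ≥ m, b_k, μ d ≥ ε > 0 (limsup_pos), d ⊆ b. (r', d) forces Ladder (S c) c: a condition below it in meets (S c n a) has a = l n, l is strictly increasing, below c and cofinal in c.
(r', d) forces InfMeets (S c) A: given m and (q', d') ≤ (r', d), d' ∩ b_k is positive for some k ≥ m, (q', d' ∩ b_k) ≤ (q_{k+1}, b_k) is in meets (A α_k), and in meets (S c (2k) α_k), 2k ≥ m. Same for B with 2k+1. -/






theorem dw13_meets_mono {P : Type} [Preorder P] {N : Set P} {p q : P} (h : q ≤ p)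
    (hp : p ∈ meets N) : q ∈ meets N :=
  fun r hr => hp r (hr.trans h)

theorem dw13_fex_mono {P : Type} [Preorder P] {ι : Type} {φ : ι → Set P} {p q : P} (h : q ≤ p)
    (hp : p ∈ fex φ) : q ∈ fex φ :=
  fun r hr => hp r (hr.trans h)

theorem dw13_Sn_mono {W J : Type} [LinearOrder W] {c : W} {n : ℕ} {a : W} {p q : PP W J}
    (h : q ≤ p) (hp : p ∈ Sn W J c n a) : q ∈ Sn W J c n a := by
  have h1 : p.1.top ≤ q.1.top := h.1.1
  have h2 : ∀ x < p.1.top, q.1.f x = p.1.f x := h.1.2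
  exact ⟨hp.1.trans_le h1, by rw [h2 c hp.1]; exact hp.2⟩

theorem dw13_Sn_unique {W J : Type} [LinearOrder W] {c : W} {n : ℕ} {a b : W} {p : PP W J}
    (hp : p ∈ Sn W J c n a) (hb : p ∈ meets (Sn W J c n b)) : b = a := by
  obtain ⟨r, hr, s, hs, hrs⟩ := hb p le_rfl
  have h1 := dw13_Sn_mono hr hp
  have h2 := dw13_Sn_mono hrs hs
  exact h2.2.symm.trans h1.2

theorem dw13_isFun {W J : Type} [LinearOrder W]
    (hu : ∀ u : ℕ → W, ∃ a, ∀ n, u n < a) (c : W) (p : PP W J) : p ∈ IsFun (Sn W J c) := by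
  refine ⟨fun n => mem_fex_of fun q _ => ?_, fun n a b => mem_fimp_of fun q _ hq => ?_⟩
  · obtain ⟨t, ht⟩ := hu fun _ => max q.1.top c
    have ht0 := ht 0
    refine ⟨q.1.f c n, (⟨t, q.1.f⟩, q.2), ⟨⟨?_, fun _ _ => rfl⟩, le_rfl⟩, mem_meets_of ⟨?_, rfl⟩⟩
    · exact ((le_max_left _ _).trans_lt ht0).le
    · exact (le_max_right _ _).trans_lt ht0
  · obtain ⟨r, hr, s, hs, hrs⟩ := hq.1 q le_rfl
    exact (dw13_Sn_unique (dw13_Sn_mono hrs hs) (dw13_meets_mono hr hq.2)).symm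

theorem dw13_step {W J : Type} [LinearOrder W]
    (hu : ∀ u : ℕ → W, ∃ a, ∀ n, u n < a) {A B : W → Set (PP W J)} {b : Pos (cm J)} {n : ℕ}
    {r : Lad W}
    (h : ∀ r' ≤ r, ∀ a : W, ∃ q'' ≤ r', ∃ α β : W, a < α ∧ α < β ∧ ∃ b' : Pos (cm J),
      b'.1 ⊆ b.1 ∧ ((n : ENNReal) + 1)⁻¹ ≤ cm J b'.1 ∧ (q'', b') ∈ meets (A α) ∧
        (q'', b') ∈ meets (B β)) (x : {x : Lad W // x ≤ r}) :
    ∃ (y : {x : Lad W // x ≤ r}) (α β : W) (b' : Pos (cm J)), y.1 ≤ x.1 ∧ x.1.top < α ∧ α < β ∧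
      β < y.1.top ∧ b'.1 ⊆ b.1 ∧ ((n : ENNReal) + 1)⁻¹ ≤ cm J b'.1 ∧
      (y.1, b') ∈ meets (A α) ∧ (y.1, b') ∈ meets (B β) := by
  obtain ⟨q'', hq'', α, β, h1, h2, b', h3, h4, h5, h6⟩ := h x.1 x.2 x.1.top
  obtain ⟨t, ht⟩ := hu fun _ => max q''.top β
  have ht0 := ht 0
  have hle : (⟨t, q''.f⟩ : Lad W) ≤ q'' :=
    ⟨((le_max_left _ _).trans_lt ht0).le, fun _ _ => rfl⟩
  have hle' : ((⟨t, q''.f⟩ : Lad W), b') ≤ (q'', b') := ⟨hle, le_rfl⟩
  exact ⟨⟨⟨t, q''.f⟩, (hle.trans hq'').trans x.2⟩, α, β, b', hle.trans hq'', h1, h2,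
    (le_max_right _ _).trans_lt ht0, h3, h4, dw13_meets_mono hle' h5, dw13_meets_mono hle' h6⟩

theorem dw13_inf {W J : Type} [LinearOrder W] {A : W → Set (PP W J)} {c : W}
    {Q : ℕ → Lad W} {b : ℕ → Pos (cm J)} {R : PP W J} {l : ℕ → W} {g : ℕ → ℕ}
    (hg : ∀ k, k ≤ g k)
    (hR : ∀ k, R.1 ≤ Q k) (hl : ∀ n, R ∈ Sn W J c n (l n))
    (hd : ∀ m, R.2.1 ⊆ ⋃ k, ⋃ (_ : m ≤ k), (b k).1)
    (hA : ∀ k, (Q (k + 1), b k) ∈ meets (A (l (g k)))) : R ∈ InfMeets (Sn W J c) A := by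
  intro m
  refine mem_fex_of fun q hq => ?_
  have hsub : q.2.1 ⊆ ⋃ k, ⋃ (_ : m ≤ k), (b k).1 := subset_trans (show q.2.1 ⊆ R.2.1 from hq.2) (hd m)
  have h1 : ∃ k, m ≤ k ∧ cm J (q.2.1 ∩ (b k).1) ≠ 0 := by
    by_contra hcon
    push Not at hcon
    apply q.2.2.2
    refine measure_mono_null (t := ⋃ k, ⋃ (_ : m ≤ k), (q.2.1 ∩ (b k).1)) ?_
      (measure_iUnion_null fun k => measure_iUnion_null fun hk => hcon k hk)
    intro x hx
    obtain ⟨k, hk⟩ := mem_iUnion.1 (hsub hx)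
    obtain ⟨hmk, hxk⟩ := mem_iUnion.1 hk
    exact mem_iUnion.2 ⟨k, mem_iUnion.2 ⟨hmk, hx, hxk⟩⟩
  obtain ⟨k, hmk, hk⟩ := h1
  let s : PP W J := (q.1, ⟨q.2.1 ∩ (b k).1, q.2.2.1.inter (b k).2.1, hk⟩)
  have hsq : s ≤ q := ⟨le_rfl, inter_subset_left⟩
  have hsb : s ≤ (Q (k + 1), b k) :=
    ⟨(show q.1 ≤ R.1 from hq.1).trans (hR (k + 1)), inter_subset_right⟩
  refine ⟨g k, s, hsq, mem_fex_of fun z hz => ⟨l (g k), z, le_rfl, hmk.trans (hg k), ?_, ?_⟩⟩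
  · exact mem_meets_of (dw13_Sn_mono (hz.trans (hsq.trans hq)) (hl (g k)))
  · exact dw13_meets_mono (hz.trans hsb) (hA k)

theorem dw13_main {W J : Type} [LinearOrder W] [WellFoundedLT W]
    (hu : ∀ u : ℕ → W, ∃ a, ∀ n, u n < a) {A B : W → Set (PP W J)} {q₀ : PP W J}
    (hA : q₀ ∈ Unb A) (hB : q₀ ∈ Unb B) :
    ∃ c : W, ∃ R ≤ q₀, R ∈ Ladder (Sn W J c) c ∧ R ∈ InfMeets (Sn W J c) A ∧
      R ∈ InfMeets (Sn W J c) B := by
  classical
  obtain ⟨q, b⟩ := q₀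
  have hσ : ∀ x : ℕ → Lad W, Antitone x → ∃ r, ∀ n, r ≤ x n := by
    intro x hx
    obtain ⟨c, hc⟩ := hu fun n => (x n).top
    obtain ⟨r, hr, -⟩ := lad_lower hu x hx c (fun n => (hc n).le) (fun _ => c)
    exact ⟨r, hr⟩
  obtain ⟨n, r, hrq, hr⟩ := uniform_eps (Q := Lad W) (W := W) hσ hu
    (fun q' a n => q' ≤ q → ∃ q'' ≤ q', ∃ α β : W, a < α ∧ α < β ∧ ∃ b' : Pos (cm J),
      b'.1 ⊆ b.1 ∧ ((n : ENNReal) + 1)⁻¹ ≤ cm J b'.1 ∧ (q'', b') ∈ meets (A α) ∧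
        (q'', b') ∈ meets (B β))
    (by
      intro x x' a a' n hx ha h hxq
      obtain ⟨q'', hq'', α, β, h1, h2⟩ := h (hx.trans hxq)
      exact ⟨q'', hq''.trans hx, α, β, ha.trans_lt h1, h2⟩)
    (by
      intro x a
      by_cases hxq : x ≤ q
      · have hx : ((x, b) : PP W J) ≤ (q, b) := ⟨hxq, le_rfl⟩
        obtain ⟨α, r1, hr1, h1, h1'⟩ := of_mem_fex (dw13_fex_mono hx (hA a))
        obtain ⟨β, r2, hr2, h2, h2'⟩ := of_mem_fex (dw13_fex_mono (hr1.trans hx) (hB α))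
        obtain ⟨n, hn⟩ := ENNReal.exists_inv_nat_lt r2.2.2.2
        refine ⟨n, fun _ => ⟨r2.1, (show r2.1 ≤ r1.1 from hr2.1).trans hr1.1, α, β, h1, h2, r2.2,
          subset_trans (show r2.2.1 ⊆ r1.2.1 from hr2.2) hr1.2, ?_, dw13_meets_mono hr2 h1', h2'⟩⟩
        refine le_trans ?_ hn.le
        exact ENNReal.inv_le_inv.2 le_self_add
      · exact ⟨0, fun h => absurd h hxq⟩) q
  have hr' := fun r' (hr1 : r' ≤ r) (a : W) => hr r' hr1 a (hr1.trans hrq)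
  choose nxt α β b' hstep using dw13_step hu hr'
  let Q' : ℕ → {x : Lad W // x ≤ r} := fun k => Nat.rec ⟨r, le_rfl⟩ (fun _ x => nxt x) k
  have hQ' : ∀ k, Q' (k + 1) = nxt (Q' k) := fun k => rfl
  let Q : ℕ → Lad W := fun k => (Q' k).1
  have hs1 : ∀ k, Q (k + 1) ≤ Q k := fun k => (hstep (Q' k)).1
  have hs2 : ∀ k, (Q k).top < α (Q' k) := fun k => (hstep (Q' k)).2.1
  have hs3 : ∀ k, α (Q' k) < β (Q' k) := fun k => (hstep (Q' k)).2.2.1
  have hs4 : ∀ k, β (Q' k) < (Q (k + 1)).top := fun k => (hstep (Q' k)).2.2.2.1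
  have hs5 : ∀ k, (b' (Q' k)).1 ⊆ b.1 := fun k => (hstep (Q' k)).2.2.2.2.1
  have hs6 : ∀ k, ((n : ENNReal) + 1)⁻¹ ≤ cm J (b' (Q' k)).1 := fun k => (hstep (Q' k)).2.2.2.2.2.1
  have hs7 : ∀ k, (Q (k + 1), b' (Q' k)) ∈ meets (A (α (Q' k))) := fun k =>
    (hstep (Q' k)).2.2.2.2.2.2.1
  have hs8 : ∀ k, (Q (k + 1), b' (Q' k)) ∈ meets (B (β (Q' k))) := fun k =>
    (hstep (Q' k)).2.2.2.2.2.2.2
  have hanti : Antitone Q := antitone_nat_of_succ_le hs1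
  -- the least upper bound
  have hne : ({x : W | ∀ k, (Q k).top ≤ x}).Nonempty := by
    obtain ⟨a, ha⟩ := hu fun k => (Q k).top
    exact ⟨a, fun k => (ha k).le⟩
  let c : W := WellFounded.min (wellFounded_lt (α := W)) _ hne
  have hc1 : ∀ k, (Q k).top ≤ c := WellFounded.min_mem (wellFounded_lt (α := W)) _ hne
  have hc2 : ∀ a < c, ∃ k, a < (Q k).top := by
    intro a ha
    by_contra hcon
    push Not at hcon
    exact WellFounded.not_lt_min (wellFounded_lt (α := W)) _ (show a ∈ {x : W | ∀ k, (Q k).top ≤ x} from hcon) ha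
  let l : ℕ → W := fun m => if m % 2 = 0 then α (Q' (m / 2)) else β (Q' (m / 2))
  have hl0 : ∀ k, l (2 * k) = α (Q' k) := by
    intro k
    have h1 : (2 * k) % 2 = 0 := by omega
    have h2 : (2 * k) / 2 = k := by omega
    simp only [l, h1, h2, if_true]
  have hl1 : ∀ k, l (2 * k + 1) = β (Q' k) := by
    intro k
    have h1 : ¬ (2 * k + 1) % 2 = 0 := by omega
    have h2 : (2 * k + 1) / 2 = k := by omega
    simp only [l, h1, h2, if_false]
  have hlmono : ∀ m, l m < l (m + 1) := by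
    intro m
    rcases Nat.even_or_odd' m with ⟨k, rfl | rfl⟩
    · rw [hl0, hl1]
      exact hs3 k
    · rw [hl1, show 2 * k + 1 + 1 = 2 * (k + 1) by ring, hl0]
      exact (hs4 k).trans (hs2 (k + 1))
  have hlc : ∀ m, l m < c := by
    intro m
    rcases Nat.even_or_odd' m with ⟨k, rfl | rfl⟩
    · rw [hl0]
      exact ((hs3 k).trans (hs4 k)).trans_le (hc1 (k + 1))
    · rw [hl1]
      exact (hs4 k).trans_le (hc1 (k + 1))
  have hlcof : ∀ a < c, ∃ m, a < l m := by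
    intro a ha
    obtain ⟨k, hk⟩ := hc2 a ha
    exact ⟨2 * k, by rw [hl0]; exact hk.trans (hs2 k)⟩
  obtain ⟨r', hr'Q, hcr', hr'f⟩ := lad_lower hu Q hanti c hc1 l
  -- the measurable set
  let d : Set (J → Bool) := ⋂ m, ⋃ k, ⋃ (_ : m ≤ k), (b' (Q' k)).1
  have hdm : MeasurableSet d := MeasurableSet.iInter fun m => MeasurableSet.iUnion fun k =>
    MeasurableSet.iUnion fun _ => (b' (Q' k)).2.1
  have hdpos : ((n : ENNReal) + 1)⁻¹ ≤ cm J d :=
    limsup_pos (fun k => (b' (Q' k)).1) (fun k => (b' (Q' k)).2.1) hs6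
  have hd0 : cm J d ≠ 0 := by
    intro h
    rw [h] at hdpos
    have h1 : ((n : ENNReal) + 1)⁻¹ = 0 := le_antisymm hdpos bot_le
    rw [ENNReal.inv_eq_zero] at h1
    exact ENNReal.add_ne_top.2 ⟨ENNReal.natCast_ne_top n, ENNReal.one_ne_top⟩ h1
  have hdb : d ⊆ b.1 := by
    intro x hx
    obtain ⟨k, hk⟩ := mem_iUnion.1 (mem_iInter.1 hx 0)
    obtain ⟨_, hxk⟩ := mem_iUnion.1 hk
    exact hs5 k hxk
  let R : PP W J := (r', ⟨d, hdm, hd0⟩)
  have hRq : R ≤ (q, b) := ⟨(hr'Q 0).trans hrq, hdb⟩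
  have hRS : ∀ m, R ∈ Sn W J c m (l m) := fun m => ⟨hcr', by
    change r'.f c m = l m
    rw [hr'f]⟩
  have hRd : ∀ m, R.2.1 ⊆ ⋃ k, ⋃ (_ : m ≤ k), (b' (Q' k)).1 := fun m => iInter_subset _ m
  refine ⟨c, R, hRq, ⟨?_, ?_, ?_⟩, ?_, ?_⟩
  · intro m a a'
    refine mem_fimp_of fun x hx hxm => ?_
    have h1 := dw13_Sn_unique (dw13_Sn_mono hx (hRS m)) hxm.1
    have h2 := dw13_Sn_unique (dw13_Sn_mono hx (hRS (m + 1))) hxm.2
    change a < a'
    rw [h1, h2]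
    exact hlmono m
  · intro m a
    refine mem_fimp_of fun x hx hxm => ?_
    have h1 := dw13_Sn_unique (dw13_Sn_mono hx (hRS m)) hxm
    change a < c
    rw [h1]
    exact hlc m
  · intro a
    refine mem_fimp_of fun x hx ha => ?_
    obtain ⟨m, hm⟩ := hlcof a ha
    refine mem_fex_of fun y hy => ⟨m, y, le_rfl, mem_fex_of fun z hz => ⟨l m, z, le_rfl, ?_, hm⟩⟩
    exact mem_meets_of (dw13_Sn_mono (hz.trans (hy.trans hx)) (hRS m))
  · refine dw13_inf (Q := Q) (b := fun k => b' (Q' k)) (l := l) (g := fun k => 2 * k)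
      (fun k => by omega) hr'Q hRS hRd fun k => ?_
    change (Q (k + 1), b' (Q' k)) ∈ meets (A (l (2 * k)))
    rw [hl0]
    exact hs7 k
  · refine dw13_inf (Q := Q) (b := fun k => b' (Q' k)) (l := l) (g := fun k => 2 * k + 1)
      (fun k => by omega) hr'Q hRS hRd fun k => ?_
    change (Q (k + 1), b' (Q' k)) ∈ meets (B (l (2 * k + 1)))
    rw [hl1]
    exact hs8 k

/- TARGET -/
theorem force_guess {W J : Type} [LinearOrder W] [WellFoundedLT W]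
    (hu : ∀ u : ℕ → W, ∃ a, ∀ n, u n < a) (p : PP W J) : p ∈ Guess (PP W J) W := by
  refine mem_fex_of fun q _ => ⟨Sn W J, q, le_rfl, fun c => dw13_isFun hu c q, fun A B =>
    mem_fimp_of fun q₁ _ hq₁ => mem_fex_of fun q₂ hq₂ => ?_⟩
  have hA : q₂ ∈ Unb A := fun a => dw13_fex_mono hq₂ (hq₁.1 a)
  have hB : q₂ ∈ Unb B := fun a => dw13_fex_mono hq₂ (hq₁.2 a)
  obtain ⟨c, R, hR, h1, h2, h3⟩ := dw13_main hu hA hB
  exact ⟨c, R, hR, h1, h2, h3⟩

end Pool.Agent.H679DW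

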