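import Mathlib
import Pool.Agent.H679DW.Val
import Pool.Agent.H679DW.Decide
import Pool.Agent.H679DW.Block
import Pool.Agent.H679DW.Lang
import Pool.Agent.H679DW.Pos

set_option autoImplicit false

open Set MeasureTheory Cardinal
open scoped Topology

namespace Pool.Agent.H679DW

open Pool.Agent.Helper584.RM









theorem dw11_isFun_down {P : Type} [Preorder P] {X Y : Type} {R : X → Y → Set P} {p q : P}
    (h : p ∈ IsFun R) (hq : q ≤ p) : q ∈ IsFun R :=
  ⟨fun x r hr => h.1 x r (hr.trans hq), fun x y y' r hr => h.2 x y y' r (hr.trans hq)⟩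

theorem dw11_Em {J : Type} (j : J) (b : Bool) : MeasurableSet {ω : J → Bool | ω j = b} :=
  (measurable_pi_apply j : Measurable fun ω : J → Bool => ω j) (measurableSet_singleton b)

theorem dw11_meets {W J : Type} [LinearOrder W] {A : Set (J → Bool)} (hA : MeasurableSet A)
    (p : PP W J) : p ∈ meets {r : PP W J | r.2.1 ⊆ A} ↔ cm J (p.2.1 \ A) = 0 := by
  constructor
  · intro hp
    by_contra hne
    obtain ⟨r, hr, s, hs, hrs⟩ := hp (p.1, ⟨p.2.1 \ A, p.2.2.1.diff hA, hne⟩)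
      ⟨le_rfl, sdiff_subset⟩
    apply r.2.2.2
    have : r.2.1 = ∅ := by
      ext x
      simp only [mem_empty_iff_false, iff_false]
      intro hx
      exact (hr.2 hx).2 (hs (hrs.2 hx))
    rw [this]
    exact measure_empty
  · intro hp q hq
    have h1 : cm J (q.2.1 ∩ A) ≠ 0 := by
      intro h
      apply q.2.2.2
      refine measure_mono_null ?_ (measure_union_null h
        (measure_mono_null (show q.2.1 \ A ⊆ p.2.1 \ A from fun x hx => ⟨hq.2 hx.1, hx.2⟩) hp))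
      intro x hx
      by_cases hxA : x ∈ A
      · exact Or.inl ⟨hx, hxA⟩
      · exact Or.inr ⟨hx, hxA⟩
    refine ⟨(q.1, ⟨q.2.1 ∩ A, q.2.2.1.inter hA, h1⟩), ⟨le_rfl, inter_subset_left⟩,
      (q.1, ⟨q.2.1 ∩ A, q.2.2.1.inter hA, h1⟩), ?_, le_rfl⟩
    exact inter_subset_right

theorem dw11_isFun {W J : Type} [LinearOrder W] (t : ℕ → J) (p : PP W J) :
    p ∈ IsFun (fun (i : ℕ) (b : Bool) => {r : PP W J | r.2.1 ⊆ {ω : J → Bool | ω (t i) = b}}) := by
  refine ⟨?_, ?_⟩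
  · intro i
    refine mem_fex_of fun q _ => ?_
    by_cases h1 : cm J (q.2.1 ∩ {ω : J → Bool | ω (t i) = true}) = 0
    · have h2 : cm J (q.2.1 ∩ {ω : J → Bool | ω (t i) = false}) ≠ 0 := by
        intro h2
        apply q.2.2.2
        refine measure_mono_null ?_ (measure_union_null h1 h2)
        intro ω hω
        by_cases h3 : ω (t i) = true
        · exact Or.inl ⟨hω, h3⟩
        · exact Or.inr ⟨hω, Bool.eq_false_of_not_eq_true h3⟩
      exact ⟨false, (q.1, ⟨q.2.1 ∩ {ω : J → Bool | ω (t i) = false},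
        q.2.2.1.inter (dw11_Em _ _), h2⟩), ⟨le_rfl, inter_subset_left⟩,
        mem_meets_of inter_subset_right⟩
    · exact ⟨true, (q.1, ⟨q.2.1 ∩ {ω : J → Bool | ω (t i) = true},
        q.2.2.1.inter (dw11_Em _ _), h1⟩), ⟨le_rfl, inter_subset_left⟩,
        mem_meets_of inter_subset_right⟩
  · intro i y y'
    refine mem_fimp_of fun q _ hq => ?_
    have h1 := (dw11_meets (dw11_Em (t i) y) q).1 hq.1
    have h2 := (dw11_meets (dw11_Em (t i) y') q).1 hq.2
    show y = y'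
    by_contra hne
    apply q.2.2.2
    refine measure_mono_null ?_ (measure_union_null h1 h2)
    intro ω hω
    by_cases h3 : ω (t i) = y
    · right
      refine ⟨hω, fun h4 => hne ?_⟩
      exact h3.symm.trans h4
    · exact Or.inl ⟨hω, h3⟩

theorem dw11_tail {J : Type} {F : ℕ → Set (J → Bool)} (hF : ∀ n, cm J (F n) ≤ 2⁻¹ ^ n)
    {b : Set (J → Bool)} (hb : cm J b ≠ 0) : ∃ m : ℕ, cm J (⋃ n : ℕ, F (n + m)) < cm J b := by
  obtain ⟨k, hk⟩ := ENNReal.exists_inv_two_pow_lt hb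
  refine ⟨k + 1, lt_of_le_of_lt ?_ hk⟩
  refine (measure_iUnion_le _).trans ?_
  refine (ENNReal.tsum_le_tsum fun n => hF (n + (k + 1))).trans ?_
  have h1 : ∀ n : ℕ, (2⁻¹ : ENNReal) ^ (n + (k + 1)) = 2⁻¹ ^ (k + 1) * 2⁻¹ ^ n := by
    intro n
    rw [← pow_add, add_comm]
  simp_rw [h1]
  rw [ENNReal.tsum_mul_left, ENNReal.tsum_geometric, ENNReal.one_sub_inv_two, inv_inv, pow_succ,
    mul_assoc, ENNReal.inv_mul_cancel (by norm_num) (by norm_num), mul_one]

/- TARGET -/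
theorem force_nonM {W J : Type} [LinearOrder W]
    (hσ : ∀ q : ℕ → Lad W, Antitone q → ∃ r, ∀ n, r ≤ q n)
    (hJ : ∀ S : W × ℕ × Bool × Lad W → Set J, (∀ i, (S i).Countable) →
      ∃ t : ℕ → J, Function.Injective t ∧ ∀ n i, t n ∉ S i)
    (p : PP W J) : p ∈ NonM (PP W J) W := by
  classical
  intro X
  refine mem_fimp_of fun p0 _ hp0 => ?_
  choose V hVm hV using fun a i y => exists_val (μ := cm J) (Q := Lad W) (X a i y)
  choose S hS hS' using fun s : W × ℕ × Bool × Lad W => exists_dep (hVm s.1 s.2.1 s.2.2.1 s.2.2.2)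
  obtain ⟨t, ht, htS⟩ := hJ S hS
  have htT : ∀ n, t n ∉ ⋃ s, S s := by
    intro n hn
    obtain ⟨s, hs⟩ := mem_iUnion.1 hn
    exact htS n s hs
  refine mem_fex_of fun p1 hp1 => ⟨fun (i : ℕ) (b : Bool) =>
    {r : PP W J | r.2.1 ⊆ {ω : J → Bool | ω (t i) = b}}, p1, le_rfl, dw11_isFun t p1, ?_⟩
  intro a
  refine mem_fex_of fun p2 hp2 => ?_
  have hX : (p2.1, p2.2) ∈ IsFun (X a) := dw11_isFun_down (hp0 a) (hp2.trans hp1)
  obtain ⟨r, hr, hr0⟩ := decide_name hσ (X a) (V a) (hVm a) (hV a) p2.1 p2.2 hX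
  obtain ⟨F, hFdef⟩ : ∃ F : ℕ → Set (J → Bool), F = fun n => {ω | ∀ i ∈ Finset.Ico (2 ^ n) (2 ^ (n + 1)),
    (ω ∈ V a i true r ↔ ω (t i) = true)} := ⟨_, rfl⟩
  have hFmeas : ∀ n, MeasurableSet (F n) := by
    intro n
    have h1 : F n = ⋂ i ∈ Finset.Ico (2 ^ n) (2 ^ (n + 1)),
        {ω | ω ∈ V a i true r ↔ ω (t i) = true} := by
      rw [hFdef]
      ext ω
      simp only [mem_ofPred_eq, mem_iInter]
    rw [h1]
    refine Finset.measurableSet_biInter _ fun i _ => ?_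
    have h2 : {ω : J → Bool | ω ∈ V a i true r ↔ ω (t i) = true} =
        (V a i true r ∩ {ω | ω (t i) = true}) ∪ ((V a i true r)ᶜ ∩ {ω | ω (t i) = true}ᶜ) := by
      ext ω
      simp only [mem_ofPred_eq, mem_union, mem_inter_iff, mem_compl_iff]
      tauto
    rw [h2]
    exact ((hVm a i true r).inter (dw11_Em _ _)).union
      ((hVm a i true r).compl.inter (dw11_Em _ _).compl)
  have hFle : ∀ n, cm J (F n) ≤ 2⁻¹ ^ n := by
    intro n
    have h1 := block_measure (h := fun i => V a i true r) (T := ⋃ s, S s) t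
      (fun i => hVm a i true r) (fun i => (hS' (a, i, true, r)).mono (subset_iUnion S _)) ht htT
      (Finset.Ico (2 ^ n) (2 ^ (n + 1)))
    have h2 : (Finset.Ico (2 ^ n) (2 ^ (n + 1))).card = 2 ^ n := by
      rw [Nat.card_Ico, pow_succ]
      omega
    rw [h2] at h1
    have h3 : F n = {ω | ∀ i ∈ Finset.Ico (2 ^ n) (2 ^ (n + 1)),
      (ω ∈ V a i true r ↔ ω (t i) = true)} := by rw [hFdef]
    rw [h3, h1]
    exact pow_le_pow_right_of_le_one' (by norm_num) (Nat.lt_two_pow_self).le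
  obtain ⟨m, hm⟩ := dw11_tail hFle p2.2.2.2
  have hUm : MeasurableSet (⋃ n : ℕ, F (n + m)) := MeasurableSet.iUnion fun n => hFmeas _
  have hd : cm J (p2.2.1 \ ⋃ n : ℕ, F (n + m)) ≠ 0 := by
    intro h0
    have h1 : cm J p2.2.1 ≤ cm J (p2.2.1 \ ⋃ n : ℕ, F (n + m)) + cm J (⋃ n : ℕ, F (n + m)) := by
      refine (measure_mono ?_).trans (measure_union_le _ _)
      intro x hx
      by_cases hx2 : x ∈ ⋃ n : ℕ, F (n + m)
      · exact Or.inr hx2
      · exact Or.inl ⟨hx, hx2⟩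
    rw [h0, zero_add] at h1
    exact absurd hm (not_lt.2 h1)
  refine ⟨m, (r, ⟨p2.2.1 \ ⋃ n : ℕ, F (n + m), p2.2.2.1.diff hUm, hd⟩), ⟨hr, sdiff_subset⟩, ?_⟩
  intro n
  refine mem_fimp_of fun p3 hp3 hmn => ?_
  have hmn' : m ≤ n := hmn
  refine mem_fex_of fun p4 hp4 => ?_
  have hp4r : p4.1 ≤ r := (hp4.trans hp3).1
  have hp4d : p4.2.1 ⊆ p2.2.1 \ ⋃ n : ℕ, F (n + m) := (hp4.trans hp3).2
  have hex : ∃ i ∈ Finset.Ico (2 ^ n) (2 ^ (n + 1)), ∃ y : Bool,
      cm J ((p4.2.1 ∩ V a i y r) ∩ {ω | ω (t i) = y}ᶜ) ≠ 0 := by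
    by_contra hcon
    push Not at hcon
    apply p4.2.2.2
    have h1 : cm J (⋃ i ∈ Finset.Ico (2 ^ n) (2 ^ (n + 1)), ⋃ y : Bool,
        ((p4.2.1 ∩ V a i y r) ∩ {ω | ω (t i) = y}ᶜ)) = 0 :=
      measure_iUnion_null fun i => measure_iUnion_null fun hi =>
        measure_iUnion_null fun y => hcon i hi y
    have h2 : cm J (⋃ i : ℕ, (p2.2.1 \ (V a i true r ∪ V a i false r))) = 0 :=
      measure_iUnion_null fun i => hr0 i
    refine measure_mono_null ?_ (measure_union_null h1 h2)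
    intro ω hω
    have h3 : ω ∉ F n := by
      intro h4
      apply (hp4d hω).2
      refine mem_iUnion.2 ⟨n - m, ?_⟩
      rw [Nat.sub_add_cancel hmn']
      exact h4
    have h5 : ∃ i ∈ Finset.Ico (2 ^ n) (2 ^ (n + 1)), ¬ (ω ∈ V a i true r ↔ ω (t i) = true) := by
      by_contra hcon2
      push Not at hcon2
      apply h3
      rw [hFdef]
      intro i hi
      exact hcon2 i hi
    obtain ⟨i, hi, hi2⟩ := h5
    by_cases h6 : ω ∈ V a i true r
    · left
      have h7 : ¬ ω (t i) = true := fun h7 => hi2 ⟨fun _ => h7, fun _ => h6⟩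
      exact mem_iUnion₂.2 ⟨i, hi, mem_iUnion.2 ⟨true, ⟨hω, h6⟩, h7⟩⟩
    · have h7 : ω (t i) = true := by
        by_contra h7
        exact hi2 ⟨fun h => absurd h h6, fun h => absurd h h7⟩
      by_cases h8 : ω ∈ V a i false r
      · left
        refine mem_iUnion₂.2 ⟨i, hi, mem_iUnion.2 ⟨false, ⟨hω, h8⟩, ?_⟩⟩
        intro h9
        have h10 : ω (t i) = false := h9
        rw [h7] at h10
        exact Bool.noConfusion h10
      · right
        refine mem_iUnion.2 ⟨i, (hp4d hω).1, ?_⟩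
        rintro (h9 | h9)
        · exact h6 h9
        · exact h8 h9
  obtain ⟨i, hi, y, hy⟩ := hex
  refine ⟨i, (p4.1, ⟨(p4.2.1 ∩ V a i y r) ∩ {ω | ω (t i) = y}ᶜ,
    (p4.2.2.1.inter (hVm a i y r)).inter (dw11_Em _ _).compl, hy⟩), ⟨le_rfl, fun x hx => hx.1.1⟩,
    ?_, ?_⟩
  · exact Finset.mem_Ico.1 hi
  · refine mem_fex_of fun s hs => ⟨y, s, le_rfl, ?_, ?_⟩
    · have h1 : (s.1, s.2) ∈ meets (X a i y) := by
        rw [hV a i y s.1 s.2]
        refine measure_mono_null ?_ (val_mono (hVm a i y) (hV a i y)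
          (show s.1 ≤ r from hs.1.trans hp4r))
        intro x hx
        exact ⟨(hs.2 hx.1).1.2, hx.2⟩
      exact h1
    · intro s' hs' hmeet
      have h2 := (dw11_meets (dw11_Em (t i) y) s').1 hmeet
      apply s'.2.2.2
      refine measure_mono_null ?_ h2
      intro x hx
      exact ⟨hx, (hs.2 (hs'.2 hx)).2⟩

end Pool.Agent.H679DW
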