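import Mathlib
import Pool.Agent.H679DW.Lang

set_option autoImplicit false

open Set MeasureTheory Cardinal
open scoped Topology

namespace Pool.Agent.H679DW

open Pool.Agent.Helper584.RM

/-- The `i`-th binary digit of `t`. -/
noncomputable def dw6_dig (i : ℕ) (t : ℝ) : Bool := decide (Odd ⌊(2 : ℝ) ^ i * t⌋)

/-- The nowhere dense set. -/
def dw6_C (g : ℕ → Bool) (m : ℕ) : Set ℝ :=
  {t | ∀ n, m ≤ n → ∃ i, (2 ^ n ≤ i ∧ i < 2 ^ (n + 1)) ∧ dw6_dig i t ≠ g i}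

/-- The sequence of prescribed digits. -/
def dw6_c (g : ℕ → Bool) (k : ℕ) (a : ℤ) : ℕ → ℤ
  | 0 => a
  | (j + 1) => 2 * dw6_c g k a j + (if g (k + 1 + j) then 1 else 0)

theorem dw6_floor_half (i : ℕ) (t : ℝ) (c b : ℤ) (hb : b = 0 ∨ b = 1)
    (h : ⌊(2 : ℝ) ^ (i + 1) * t⌋ = 2 * c + b) : ⌊(2 : ℝ) ^ i * t⌋ = c := by
  rw [Int.floor_eq_iff] at h ⊢
  obtain ⟨h1, h2⟩ := h
  rw [pow_succ] at h1 h2
  push_cast at h1 h2
  rcases hb with rfl | rfl
  · push_cast at h1 h2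
    constructor <;> linarith
  · push_cast at h1 h2
    constructor <;> linarith

theorem dw6_floor_down (g : ℕ → Bool) (k : ℕ) (a : ℤ) (t : ℝ) (J : ℕ)
    (h : ⌊(2 : ℝ) ^ (k + J) * t⌋ = dw6_c g k a J) :
    ∀ j, j ≤ J → ⌊(2 : ℝ) ^ (k + j) * t⌋ = dw6_c g k a j := by
  induction J with
  | zero =>
    intro j hj
    obtain rfl : j = 0 := by omega
    exact h
  | succ J ih =>
    intro j hj
    rcases Nat.lt_or_ge j (J + 1) with hlt | hge
    · apply ih _ j (by omega)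
      apply dw6_floor_half (k + J) t (dw6_c g k a J) (if g (k + 1 + J) then 1 else 0)
      · by_cases hg : g (k + 1 + J) = true
        · right; simp [hg]
        · left; simp [hg]
      · rw [show k + J + 1 = k + (J + 1) from rfl, h]
        rfl
    · obtain rfl : j = J + 1 := by omega
      exact h

theorem dw6_digit (g : ℕ → Bool) (k : ℕ) (a : ℤ) (t : ℝ) (j : ℕ)
    (h : ⌊(2 : ℝ) ^ (k + (j + 1)) * t⌋ = dw6_c g k a (j + 1)) :
    dw6_dig (k + 1 + j) t = g (k + 1 + j) := by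
  unfold dw6_dig
  rw [show k + 1 + j = k + (j + 1) by omega, h]
  show decide (Odd (2 * dw6_c g k a j + (if g (k + 1 + j) then 1 else 0))) = g (k + (j + 1))
  rw [show k + (j + 1) = k + 1 + j by omega]
  by_cases hg : g (k + 1 + j) = true
  · rw [hg]
    simp
  · have hg' : g (k + 1 + j) = false := by simpa using hg
    rw [hg']
    simp

theorem dw6_sub (g : ℕ → Bool) (m : ℕ) (u v : ℝ) (huv : u < v) :
    ∃ p q : ℝ, p < q ∧ Ioo p q ⊆ Ioo u v ∧ ∀ t ∈ Ioo p q, t ∉ dw6_C g m := by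
  obtain ⟨r, hr⟩ := pow_unbounded_of_one_lt (2 / (v - u)) (one_lt_two : (1 : ℝ) < 2)
  have huv' : 0 < v - u := by linarith
  rw [div_lt_iff₀ huv'] at hr
  set n : ℕ := max m r with hn
  set k : ℕ := 2 ^ n - 1 with hk
  have hpos : 1 ≤ 2 ^ n := Nat.one_le_two_pow
  have hk1 : k + 1 = 2 ^ n := by omega
  have hnk : n ≤ k := by
    have : n < 2 ^ n := Nat.lt_two_pow_self
    omega
  have hrk : r ≤ k := le_trans (le_max_right _ _) hnk
  have hbig : 2 < (2 : ℝ) ^ k * (v - u) := by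
    have : (2 : ℝ) ^ r ≤ (2 : ℝ) ^ k := pow_le_pow_right₀ (by norm_num) hrk
    nlinarith
  have hkpos : (0 : ℝ) < 2 ^ k := by positivity
  set a : ℤ := ⌊(2 : ℝ) ^ k * u⌋ + 1 with ha
  set J : ℕ := 2 ^ n with hJ
  have hKpos : (0 : ℝ) < 2 ^ (k + J) := by positivity
  have key : ∀ t ∈ Ioo ((dw6_c g k a J : ℝ) / 2 ^ (k + J)) (((dw6_c g k a J : ℝ) + 1) / 2 ^ (k + J)),
      ∀ j, j ≤ J → ⌊(2 : ℝ) ^ (k + j) * t⌋ = dw6_c g k a j := by
    intro t ht
    apply dw6_floor_down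
    rw [Int.floor_eq_iff]
    obtain ⟨h1, h2⟩ := ht
    rw [div_lt_iff₀ hKpos] at h1
    rw [lt_div_iff₀ hKpos] at h2
    constructor
    · linarith
    · linarith
  refine ⟨(dw6_c g k a J : ℝ) / 2 ^ (k + J), ((dw6_c g k a J : ℝ) + 1) / 2 ^ (k + J), ?_, ?_, ?_⟩
  · apply div_lt_div_of_pos_right _ hKpos
    linarith
  · intro t ht
    have h0 := key t ht 0 (Nat.zero_le _)
    have h0' : ⌊(2 : ℝ) ^ k * t⌋ = a := h0
    rw [Int.floor_eq_iff] at h0'
    obtain ⟨h1, h2⟩ := h0'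
    have h3 : (a : ℝ) = (⌊(2 : ℝ) ^ k * u⌋ : ℝ) + 1 := by rw [ha]; push_cast; ring
    have h4 : (2 : ℝ) ^ k * u < (⌊(2 : ℝ) ^ k * u⌋ : ℝ) + 1 := Int.lt_floor_add_one _
    have h5 : (⌊(2 : ℝ) ^ k * u⌋ : ℝ) ≤ (2 : ℝ) ^ k * u := Int.floor_le _
    constructor
    · have : (2 : ℝ) ^ k * u < (2 : ℝ) ^ k * t := by linarith
      exact lt_of_mul_lt_mul_left this hkpos.le
    · have : (2 : ℝ) ^ k * t < (2 : ℝ) ^ k * v := by nlinarith
      exact lt_of_mul_lt_mul_left this hkpos.le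
  · intro t ht hC
    obtain ⟨i, ⟨hi1, hi2⟩, hne⟩ := hC n (le_max_left _ _)
    apply hne
    have hpow : 2 ^ (n + 1) = 2 * 2 ^ n := by ring
    obtain ⟨j, hj⟩ : ∃ j, i = k + 1 + j := ⟨i - 2 ^ n, by omega⟩
    have hjJ : j + 1 ≤ J := by omega
    rw [hj]
    exact dw6_digit g k a t j (key t ht (j + 1) hjJ)

theorem dw6_nowhere (g : ℕ → Bool) (m : ℕ) : IsNowhereDense (dw6_C g m) := by
  unfold IsNowhereDense
  by_contra hne
  have hne' : (interior (closure (dw6_C g m))).Nonempty := Set.nonempty_iff_ne_empty.mpr hne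
  obtain ⟨x, hx⟩ := hne'
  have hnh : interior (closure (dw6_C g m)) ∈ 𝓝 x := isOpen_interior.mem_nhds hx
  obtain ⟨u, v, hxuv, hsub⟩ := mem_nhds_iff_exists_Ioo_subset.mp hnh
  obtain ⟨p, q, hpq, hsub2, hdis⟩ := dw6_sub g m u v (lt_trans hxuv.1 hxuv.2)
  have hy : (p + q) / 2 ∈ Ioo p q := ⟨by linarith, by linarith⟩
  have hyc : (p + q) / 2 ∈ closure (dw6_C g m) := interior_subset (hsub (hsub2 hy))
  obtain ⟨z, hz1, hz2⟩ := mem_closure_iff.mp hyc (Ioo p q) isOpen_Ioo hy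
  exact hdis z hz1 hz2

/- label dw6_. Plain proof. Let L be such a set. As L is uncountable and #W = ℵ₁, there is an injection y : W → L. Let x a i be true iff the i-th binary digit
of y a is 1, i.e. ⌊2^i * y a⌋ is odd. Take g from NonM₀. For m let C m = {t : ℝ | ∀ n ≥ m, ∃ i, 2^n ≤ i < 2^(n+1), digit i of t ≠ g i}. C m is nowhere dense: given an open interval, there
are n ≥ m and an integer a with [a / 2^(N-1), (a+1) / 2^(N-1)) inside it, N = 2^n; define c (N-1) = a, c i = 2 * c (i-1) + (g i as 0 or 1) for N ≤ i < 2N; then every t in the open interval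
(c (2N-1) / 2^(2N-1), (c (2N-1) + 1) / 2^(2N-1)) has ⌊2^i t⌋ = c i for N-1 ≤ i ≤ 2N-1, so its digits i, N ≤ i < 2N, are g i and t ∉ C m. So M = ⋃ m C m is meagre and contains all y a,
so L ∩ M ⊇ range y is uncountable. -/
theorem no_lusin {W : Type} (hW : #W = ℵ₁) (h : NonM₀ W) :
    ¬ ∃ L : Set ℝ, ¬ L.Countable ∧ ∀ M : Set ℝ, IsMeagre M → (L ∩ M).Countable := by
  rintro ⟨L, hL, hM⟩
  have hLcard : #W ≤ #L := by
    rw [hW, Cardinal.aleph_one_le_iff]
    by_contra hle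
    apply hL
    rw [not_lt] at hle
    exact Cardinal.le_aleph0_iff_set_countable.mp hle
  obtain ⟨y⟩ := (Cardinal.le_def _ _).mp hLcard
  obtain ⟨g, hg⟩ := h (fun a i => dw6_dig i (y a : ℝ))
  have hmeagre : IsMeagre (⋃ m : ℕ, dw6_C g m) :=
    isMeagre_iUnion fun m => (dw6_nowhere g m).isMeagre
  have hcount := hM _ hmeagre
  have hsub : Set.range (fun a : W => (y a : ℝ)) ⊆ L ∩ ⋃ m : ℕ, dw6_C g m := by
    rintro _ ⟨a, rfl⟩
    refine ⟨(y a).2, ?_⟩
    obtain ⟨m, hm⟩ := hg a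
    exact Set.mem_iUnion.mpr ⟨m, hm⟩
  have hrange : (Set.range (fun a : W => (y a : ℝ))).Countable := hcount.mono hsub
  have hinj : Function.Injective (fun a : W => (y a : ℝ)) := by
    intro a b hab
    exact y.injective (Subtype.ext hab)
  have hWc : Countable W := by
    have := hrange.to_subtype
    exact (Equiv.ofInjective _ hinj).countable_iff.mpr this
  have : #W ≤ ℵ₀ := Cardinal.mk_le_aleph0_iff.mpr hWc
  rw [hW] at this
  exact absurd this (not_le.mpr Cardinal.aleph0_lt_aleph_one)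

end Pool.Agent.H679DW
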