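import Mathlib
import Pool.Agent.H679DW.Lang
import Pool.Agent.H679DW.Pos

set_option autoImplicit false

open Set MeasureTheory Cardinal
open scoped Topology

namespace Pool.Agent.H679DW

open Pool.Agent.Helper584.RM

theorem force_seg {W J : Type} [LinearOrder W] [WellFoundedLT W]
    (hu : ∀ u : ℕ → W, ∃ a, ∀ n, u n < a) (hc : ∀ a : W, (Iic a).Countable) (p : PP W J) :
    p ∈ Seg (PP W J) W := by
  refine ⟨force_wo p, ?_, ?_⟩
  · intro a
    obtain ⟨b, hb⟩ := hu (fun _ => a)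
    exact mem_fex_of fun q _ => ⟨b, q, le_rfl, hb 0⟩
  · have h1 : ∀ a : W, ∃ f : ℕ → W, Iic a = range f := fun a =>
      (hc a).exists_eq_range ⟨a, le_rfl⟩
    choose e he using h1
    refine mem_fex_of fun q _ => ⟨fun a n b => {_p | e a n = b}, q, le_rfl,
      fun a => mem_isFun_const (e a) q, fun a b => ?_⟩
    refine mem_fimp_of fun r _ hr => ?_
    have hr' : b < a := hr
    have h2 : b ∈ range (e a) := by
      rw [← he a]
      exact hr'.le
    obtain ⟨n, hn⟩ := h2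
    exact mem_fex_of fun s _ => ⟨n, s, le_rfl, meets_const.2 hn⟩

theorem exists_W : ∃ (W : Type) (_ : LinearOrder W), Nonempty W ∧ WellFoundedLT W ∧
    (∀ u : ℕ → W, ∃ a, ∀ n, u n < a) ∧ (∀ a : W, (Iic a).Countable) := by
  have hc : ∀ a : (ℵ₁ : Cardinal.{0}).ord.ToType, (Iic a).Countable := by
    intro a
    have h1 : (Iio a).Countable := by
      rw [Cardinal.countable_iff_lt_aleph_one]
      exact mk_Iio_toType_ord_lt a
    rw [← Iio_insert]
    exact h1.insert a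
  have hne : Nonempty (ℵ₁ : Cardinal.{0}).ord.ToType := by
    rw [← mk_ne_zero_iff, mk_ord_toType]
    exact (aleph_pos 1).ne'
  refine ⟨(ℵ₁ : Cardinal.{0}).ord.ToType, inferInstance, hne, inferInstance, ?_, hc⟩
  intro u
  by_contra hcon
  push Not at hcon
  have h2 : (univ : Set (ℵ₁ : Cardinal.{0}).ord.ToType) = ⋃ n, Iic (u n) := by
    symm
    rw [eq_univ_iff_forall]
    intro a
    obtain ⟨n, hn⟩ := hcon a
    exact mem_iUnion.2 ⟨n, hn⟩
  have h3 : (univ : Set (ℵ₁ : Cardinal.{0}).ord.ToType).Countable := by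
    rw [h2]
    exact countable_iUnion fun n => hc _
  rw [Cardinal.countable_iff_lt_aleph_one, mk_univ, mk_ord_toType] at h3
  exact lt_irrefl _ h3

theorem exists_J (A : Type) : ∃ J : Type, ∀ S : A → Set J, (∀ i, (S i).Countable) →
      ∃ t : ℕ → J, Function.Injective t ∧ ∀ n i, t n ∉ S i := by
  refine ⟨Set (A ⊕ ℕ), fun S hS => ?_⟩
  have h0 : ℵ₀ ≤ #(A ⊕ ℕ) := by
    rw [← mk_nat]
    exact mk_le_of_injective Sum.inr_injective
  have h1 : #(⋃ i, S i : Set (Set (A ⊕ ℕ))) ≤ #(A ⊕ ℕ) := by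
    calc #(⋃ i, S i : Set (Set (A ⊕ ℕ))) ≤ Cardinal.sum (fun i => #(S i)) := mk_iUnion_le_sum_mk
      _ ≤ Cardinal.sum (fun _ : A => ℵ₀) := sum_le_sum _ _ fun i => (hS i).le_aleph0
      _ = #A * ℵ₀ := sum_const' _ _
      _ ≤ #(A ⊕ ℕ) * #(A ⊕ ℕ) := mul_le_mul' (mk_le_of_injective Sum.inl_injective) h0
      _ = #(A ⊕ ℕ) := mul_eq_self h0
  have h2 : ((⋃ i, S i : Set (Set (A ⊕ ℕ)))ᶜ).Infinite := by
    intro hfin
    have h3 : #(Set (A ⊕ ℕ)) ≤ #(A ⊕ ℕ) := by
      rw [← mk_sum_compl (⋃ i, S i : Set (Set (A ⊕ ℕ)))]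
      refine (add_le_add h1 ((hfin.countable.le_aleph0).trans h0)).trans ?_
      rw [add_eq_self h0]
    rw [mk_set] at h3
    exact absurd h3 (not_le.2 (cantor _))
  let t := h2.natEmbedding
  refine ⟨fun n => (t n).1, fun m n h => t.injective (Subtype.ext h), fun n i hn => ?_⟩
  exact (t n).2 (mem_iUnion.2 ⟨i, hn⟩)

end Pool.Agent.H679DW
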