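import Mathlib
import Pool.Agent.H679DW.Lang

set_option autoImplicit false

open Set MeasureTheory Cardinal
open scoped Topology

namespace Pool.Agent.H679DW

open Pool.Agent.Helper584.RM

theorem dw7_seg (W : Type) [LinearOrder W] : PUnit.unit ∈ Seg PUnit.{1} W ↔ Seg₀ W := by
  unfold Seg Seg₀
  rw [u_fand, u_fand, wo_iff]
  simp only [u_fall, u_fimp, u_fex, u_fand, u_meets, u_fground]
  refine and_congr_right fun _ => and_congr_right fun _ => ?_
  constructor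
  · rintro ⟨E, hE, h⟩
    have h1 : ∀ a, ∃ f : ℕ → W, ∀ n b, PUnit.unit ∈ E a n b ↔ f n = b := fun a => u_fun (hE a)
    choose e he using h1
    refine ⟨e, fun a b hab => ?_⟩
    obtain ⟨n, hn⟩ := h a b hab
    exact ⟨n, (he a n b).1 hn⟩
  · rintro ⟨e, he⟩
    exact ⟨fun a n b => {_p | e a n = b},
      fun a => u_isFun.2 ⟨fun n => ⟨e a n, rfl⟩, fun n b b' h1 h2 => h1.symm.trans h2⟩,
      fun a b hab => he a b hab⟩

theorem dw7_unb {W : Type} [LinearOrder W] (A : W → Set PUnit.{1}) :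
    PUnit.unit ∈ Unb A ↔ ∀ a, ∃ b, a < b ∧ PUnit.unit ∈ A b := by
  unfold Unb
  simp only [u_fall, u_fex, u_fand, u_meets, u_fground]

theorem dw7_ladder {W : Type} [LinearOrder W] {s : ℕ → W} {S : ℕ → W → Set PUnit.{1}}
    (hS : ∀ n b, PUnit.unit ∈ S n b ↔ s n = b) (c : W) :
    PUnit.unit ∈ Ladder S c ↔
      (∀ n, s n < s (n + 1)) ∧ (∀ n, s n < c) ∧ ∀ a, a < c → ∃ n, a < s n := by
  unfold Ladder
  simp only [u_fall, u_fimp, u_fex, u_fand, u_meets, u_fground, hS]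
  constructor
  · rintro ⟨h1, h2, h3⟩
    refine ⟨fun n => h1 n _ _ ⟨rfl, rfl⟩, fun n => h2 n _ rfl, fun a ha => ?_⟩
    obtain ⟨n, b, hb, hab⟩ := h3 a ha
    exact ⟨n, by rw [hb]; exact hab⟩
  · rintro ⟨h1, h2, h3⟩
    refine ⟨?_, ?_, fun a ha => ?_⟩
    · rintro n a b ⟨rfl, rfl⟩
      exact h1 n
    · rintro n a rfl
      exact h2 n
    · obtain ⟨n, hn⟩ := h3 a ha
      exact ⟨n, _, rfl, hn⟩

theorem dw7_infMeets {W : Type} {s : ℕ → W} {S : ℕ → W → Set PUnit.{1}}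
    (hS : ∀ n b, PUnit.unit ∈ S n b ↔ s n = b) (A : W → Set PUnit.{1}) :
    PUnit.unit ∈ InfMeets S A ↔ ∀ m, ∃ n, m ≤ n ∧ PUnit.unit ∈ A (s n) := by
  unfold InfMeets
  simp only [u_fall, u_fex, u_fand, u_meets, u_fground, hS]
  constructor
  · intro h m
    obtain ⟨n, a, h1, h2, h3⟩ := h m
    exact ⟨n, h1, by rw [h2]; exact h3⟩
  · intro h m
    obtain ⟨n, h1, h2⟩ := h m
    exact ⟨n, _, h1, rfl, h2⟩

theorem dw7_guess (W : Type) [LinearOrder W] : PUnit.unit ∈ Guess PUnit.{1} W ↔ Guess₀ W := by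
  unfold Guess Guess₀
  simp only [u_fall, u_fimp, u_fex, u_fand]
  constructor
  · rintro ⟨S, hS, h⟩
    have h1 : ∀ c, ∃ f : ℕ → W, ∀ n b, PUnit.unit ∈ S c n b ↔ f n = b := fun c => u_fun (hS c)
    choose s hs using h1
    refine ⟨s, fun A B hAB => ?_⟩
    obtain ⟨c, h2, h3, h4⟩ := h (fun a => {_p | A a}) (fun a => {_p | B a})
      ⟨(dw7_unb _).2 hAB.1, (dw7_unb _).2 hAB.2⟩
    exact ⟨c, (dw7_ladder (hs c) c).1 h2, (dw7_infMeets (hs c) _).1 h3,
      (dw7_infMeets (hs c) _).1 h4⟩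
  · rintro ⟨s, hs⟩
    refine ⟨fun c n b => {_p | s c n = b},
      fun c => u_isFun.2 ⟨fun n => ⟨s c n, rfl⟩, fun n b b' h1 h2 => h1.symm.trans h2⟩,
      fun A B hAB => ?_⟩
    obtain ⟨c, h2, h3, h4⟩ := hs (fun a => PUnit.unit ∈ A a) (fun a => PUnit.unit ∈ B a)
      ⟨(dw7_unb A).1 hAB.1, (dw7_unb B).1 hAB.2⟩
    exact ⟨c, (dw7_ladder (s := s c) (fun _ _ => Iff.rfl) c).2 h2,
      (dw7_infMeets (s := s c) (fun _ _ => Iff.rfl) A).2 h3,
      (dw7_infMeets (s := s c) (fun _ _ => Iff.rfl) B).2 h4⟩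

theorem dw7_nonM (W : Type) [LinearOrder W] : PUnit.unit ∈ NonM PUnit.{1} W ↔ NonM₀ W := by
  unfold NonM NonM₀
  simp only [u_fall, u_fimp, u_fex, u_fand, u_meets, u_fground, u_fnot]
  constructor
  · intro h x
    obtain ⟨G, hG, h2⟩ := h (fun a i b => {_p | x a i = b})
      (fun a => u_isFun.2 ⟨fun i => ⟨x a i, rfl⟩, fun i b b' h1 h2 => h1.symm.trans h2⟩)
    obtain ⟨g, hg⟩ := u_fun hG
    refine ⟨g, fun a => ?_⟩
    obtain ⟨m, hm⟩ := h2 a
    refine ⟨m, fun n hn => ?_⟩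
    obtain ⟨i, hi, b, hb, hb2⟩ := hm n hn
    refine ⟨i, hi, fun he => hb2 ((hg i b).2 ?_)⟩
    rw [← he]
    exact hb
  · intro h X hX
    have h1 : ∀ a, ∃ f : ℕ → Bool, ∀ i b, PUnit.unit ∈ X a i b ↔ f i = b := fun a => u_fun (hX a)
    choose x hx using h1
    obtain ⟨g, hg⟩ := h x
    refine ⟨fun i b => {_p | g i = b},
      u_isFun.2 ⟨fun i => ⟨g i, rfl⟩, fun i b b' h1 h2 => h1.symm.trans h2⟩, fun a => ?_⟩
    obtain ⟨m, hm⟩ := hg a
    refine ⟨m, fun n hn => ?_⟩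
    obtain ⟨i, hi, hne⟩ := hm n hn
    exact ⟨i, hi, x a i, (hx a i _).2 rfl, fun he => hne he.symm⟩

/- label dw7_. Plain proof: with the lemmas u_fnot, u_fand, u_fall, u_fimp, u_fex, u_fground, u_meets, u_isFun, u_fun, wo_iff of Pool.Agent.Helper584_RM.Lang, exactly as `cov_iff` and `sym_iff` there
(a name over the trivial forcing notion of a set, relation or function is converted to the set, relation or function and back). -/
theorem phi_iff (W : Type) [LinearOrder W] : PUnit.unit ∈ Phi PUnit.{1} W ↔ Phi₀ W := by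
  unfold Phi Phi₀
  rw [u_fand, u_fand, dw7_seg, dw7_guess, dw7_nonM]

end Pool.Agent.H679DW
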