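import Mathlib
import Pool.Agent.H679DW.Card
import Pool.Agent.H679DW.Dowker
import Pool.Agent.H679DW.Lusin
import Pool.Agent.H679DW.Trivial
import Pool.Agent.H679DW.SegF
import Pool.Agent.H679DW.Small
import Pool.Agent.H679DW.ForceN
import Pool.Agent.H679DW.ForceG

set_option autoImplicit false

open Set MeasureTheory Cardinal
open scoped Topology

namespace Pool.Agent.H679DW

open Pool.Agent.Helper584.RM

/-- `Lad W` is countably closed. -/
theorem lad_closed {W : Type} [LinearOrder W] (hu : ∀ u : ℕ → W, ∃ a, ∀ n, u n < a)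
    (q : ℕ → Lad W) (hq : Antitone q) : ∃ r, ∀ n, r ≤ q n := by
  obtain ⟨c, hc⟩ := hu fun n => (q n).top
  obtain ⟨r, hr, -, -⟩ := lad_lower hu q hq c (fun n => (hc n).le) fun _ => c
  exact ⟨r, hr⟩

/-- There is a forcing notion which forces `Phi`: the product of the countably closed forcing notion
adding a family of sequences indexed by `ω₁` and the forcing notion adding many random reals. -/
theorem exists_forcing : ∃ (P W : Type) (_ : Preorder P) (_ : LinearOrder W), Nonempty P ∧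
    ∀ p : P, p ∈ Phi P W := by
  obtain ⟨W, iW, ⟨w⟩, hwf, hu, hc⟩ := exists_W
  obtain ⟨J, hJ⟩ := exists_J (W × ℕ × Bool × Lad W)
  exact ⟨PP W J, W, inferInstance, iW, ⟨(⟨w, fun _ _ => w⟩, ⟨univ, MeasurableSet.univ, by simp⟩)⟩,
    fun p => ⟨force_seg hu hc p, force_guess hu p, force_nonM (lad_closed hu) hJ p⟩⟩

/-- The space and the absence of Lusin sets, from `Phi₀`. -/
theorem plain {W : Type} [LinearOrder W] (h : Phi₀ W) :
    (∃ (X : Type) (_ : TopologicalSpace X), #X = ℵ₁ ∧ FirstCountableTopology X ∧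
      (∀ x : X, ∃ U : Set X, IsOpen U ∧ x ∈ U ∧ U.Countable) ∧
      T1Space X ∧ NormalSpace X ∧ ¬ CountablyParacompact X) ∧
    ¬ ∃ L : Set ℝ, ¬ L.Countable ∧ ∀ M : Set ℝ, IsMeagre M → (L ∩ M).Countable := by
  obtain ⟨h1, h2, h3⟩ := h
  obtain ⟨hW, hwf, hc, hu⟩ := seg_card h1 h2
  obtain ⟨s, hs⟩ := guess_iff.1 h2
  refine ⟨⟨W × ℕ, tp s, ?_, dowker s hs hc hu⟩, no_lusin hW h3⟩
  rw [mk_prod, hW]
  simp [aleph0_le_aleph, mul_aleph0_eq]

end Pool.Agent.H679DW
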